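import Mathlib

/-! The eternal vertex colouring game: definitions, forcing recursion, and the link between the
recursion and strategies. -/

namespace Pool.Agent.X69.EVC

set_option linter.unusedSectionVars false

variable {V : Type} [Fintype V] [DecidableEq V] {k : ℕ}

/-- A position: the current colouring (`none` means uncoloured) and the set of the vertices that
were already picked in the current round. -/
structure Pos (V : Type) (k : ℕ) where
  col : V → Option (Fin k)
  picked : Finset V

/-- The starting position. -/
def start : Pos V k := ⟨fun _ => none, ∅⟩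

/-- The colour `c` may be given to `v`: it differs from the present colour of `v` (if any) and from
the present colours of all neighbours of `v`. -/
def Allowed (G : SimpleGraph V) (p : Pos V k) (v : V) (c : Fin k) : Prop :=
  p.col v ≠ some c ∧ ∀ w, G.Adj v w → p.col w ≠ some c

/-- No colour may be given to `v`. -/
def Stuck (G : SimpleGraph V) (p : Pos V k) (v : V) : Prop := ∀ c, ¬ Allowed G p v c

/-- The position after `m.1` is picked and gets the colour `m.2`. When all vertices have been
picked a new round starts. -/
def step (p : Pos V k) (m : V × Fin k) : Pos V k :=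
  ⟨Function.update p.col m.1 (some m.2),
    if insert m.1 p.picked = Finset.univ then ∅ else insert m.1 p.picked⟩

/-- The position after the first `t` turns of the play `m`. -/
def posAt (m : ℕ → V × Fin k) : ℕ → Pos V k
  | 0 => start
  | t + 1 => step (posAt m t) (m t)

/-- The list of the first `t` turns of the play `m`. -/
def hist (m : ℕ → V × Fin k) (t : ℕ) : List (V × Fin k) := (List.range t).map m

/-- Turn `t` of the play `m` picks a vertex not yet picked in this round and gives it an allowed
colour. -/
def Proper (G : SimpleGraph V) (m : ℕ → V × Fin k) (t : ℕ) : Prop :=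
  (m t).1 ∉ (posAt m t).picked ∧ Allowed G (posAt m t) (m t).1 (m t).2

/-- Turn `t` of the play `m` picks a vertex not yet picked in this round that admits no allowed
colour. -/
def Fatal (G : SimpleGraph V) (m : ℕ → V × Fin k) (t : ℕ) : Prop :=
  (m t).1 ∉ (posAt m t).picked ∧ Stuck G (posAt m t) (m t).1

/-- Alice, who takes the turns `0, 2, 4, ...`, has a winning strategy. -/
def AliceWins (G : SimpleGraph V) (k : ℕ) : Prop :=
  ∃ σ : List (V × Fin k) → V × Fin k, ∀ m : ℕ → V × Fin k,
    (∀ t, Even t → m t = σ (hist m t)) →
    (∀ t, Odd t → Proper G m t ∨ Fatal G m t) → ∀ t, Proper G m t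

/-- Bob, who takes the turns `1, 3, 5, ...`, has a strategy that guarantees his win during one of
the rounds `1, ..., r`. -/
def BobWinsWithin (G : SimpleGraph V) (k r : ℕ) : Prop :=
  ∃ τ : List (V × Fin k) → V × Fin k, ∀ m : ℕ → V × Fin k,
    (∀ t, Odd t → m t = τ (hist m t)) →
    (∀ t, Even t → Proper G m t ∨ Fatal G m t) →
    ∃ t, t < r * Fintype.card V ∧ Fatal G m t ∧ ∀ s < t, Proper G m s

/-- The eternal game chromatic number `χ_g^∞(G)`. -/
noncomputable def chiInf (G : SimpleGraph V) : ℕ := sInf {k | 1 ≤ k ∧ AliceWins G k}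

/-- The number of rounds `r(G,k)`. -/
noncomputable def rounds (G : SimpleGraph V) (k : ℕ) : ℕ := sInf {r | BobWinsWithin G k r}

/-! ### Forcing recursion -/

/-- Bob can force his win within the next `T` turns; the second argument tells whether Bob is to
move. -/
def Force (G : SimpleGraph V) : ℕ → Bool → Pos V k → Prop
  | 0, _, _ => False
  | T + 1, true, p => ∃ v, v ∉ p.picked ∧
      (Stuck G p v ∨ ∃ c, Allowed G p v c ∧ Force G T false (step p (v, c)))
  | T + 1, false, p => ∀ v, v ∉ p.picked → ∀ c, Allowed G p v c → Force G T true (step p (v, c))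

/-! ### Plays built from a response function -/

/-- The first `t` turns of the play given by the response function `f`. -/
def listOf {M : Type} (f : List M → M) : ℕ → List M
  | 0 => []
  | t + 1 => listOf f t ++ [f (listOf f t)]

/-- The play given by the response function `f`. -/
def playOf {M : Type} (f : List M → M) (t : ℕ) : M := f (listOf f t)

theorem hist_succ (m : ℕ → V × Fin k) (t : ℕ) : hist m (t + 1) = hist m t ++ [m t] := by
  simp [hist, List.range_succ]

theorem hist_playOf (f : List (V × Fin k) → V × Fin k) (t : ℕ) :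
    hist (playOf f) t = listOf f t := by
  induction t with
  | zero => rfl
  | succ t ih => rw [hist_succ, ih]; rfl

theorem playOf_eq (f : List (V × Fin k) → V × Fin k) (t : ℕ) :
    playOf f t = f (hist (playOf f) t) := by
  rw [hist_playOf]; rfl

theorem hist_length (m : ℕ → V × Fin k) (t : ℕ) : (hist m t).length = t := by
  simp [hist]

/-- The position reached by a list of turns. -/
def posOf (h : List (V × Fin k)) : Pos V k := h.foldl step start

theorem posOf_hist (m : ℕ → V × Fin k) (t : ℕ) : posOf (hist m t) = posAt m t := by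
  induction t with
  | zero => rfl
  | succ t ih => rw [hist_succ, posOf, List.foldl_append, ← posOf, ih]; rfl

/-- There is always a vertex not yet picked in the current round. -/
theorem picked_ne_univ [Nonempty V] (m : ℕ → V × Fin k) (t : ℕ) :
    (posAt m t).picked ≠ Finset.univ := by
  cases t with
  | zero =>
    intro h
    have : (∅ : Finset V) = Finset.univ := h
    exact (Finset.univ_nonempty (α := V)).ne_empty this.symm
  | succ t =>
    intro h
    simp only [posAt, step] at h
    split_ifs at h with h1
    · exact (Finset.univ_nonempty (α := V)).ne_empty h.symm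
    · exact h1 h

/-- In each position that occurs there is a turn that is proper or fatal. -/
theorem exists_turn [Nonempty V] (G : SimpleGraph V) (hk : 1 ≤ k) (p : Pos V k)
    (hp : p.picked ≠ Finset.univ) :
    ∃ x : V × Fin k, x.1 ∉ p.picked ∧ (Allowed G p x.1 x.2 ∨ Stuck G p x.1) := by
  obtain ⟨v, hv⟩ : ∃ v, v ∉ p.picked := by
    by_contra hcon
    push Not at hcon
    exact hp (Finset.eq_univ_iff_forall.2 hcon)
  by_cases hs : Stuck G p v
  · exact ⟨(v, ⟨0, hk⟩), hv, Or.inr hs⟩
  · unfold Stuck at hs
    push Not at hs
    obtain ⟨c, hc⟩ := hs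
    exact ⟨(v, c), hv, Or.inl hc⟩

theorem not_proper_and_fatal {G : SimpleGraph V} {m : ℕ → V × Fin k} {t : ℕ}
    (h1 : Proper G m t) (h2 : Fatal G m t) : False := h2.2 _ h1.2

/-! ### Bob's side -/

/-- A response of Bob in a position from which he forces a win within `T` turns. -/
theorem exists_bob [Nonempty V] (G : SimpleGraph V) (hk : 1 ≤ k) (T : ℕ) (p : Pos V k) :
    ∃ x : V × Fin k, (p.picked ≠ Finset.univ → x.1 ∉ p.picked ∧
        (Allowed G p x.1 x.2 ∨ Stuck G p x.1)) ∧
      (Force G (T + 1) true p → x.1 ∉ p.picked ∧
        (Stuck G p x.1 ∨ (Allowed G p x.1 x.2 ∧ Force G T false (step p x)))) := by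
  by_cases hF : Force G (T + 1) true p
  · obtain ⟨v, hv, hs | ⟨c, hc, hf⟩⟩ := hF
    · exact ⟨(v, ⟨0, hk⟩), fun _ => ⟨hv, Or.inr hs⟩, fun _ => ⟨hv, Or.inl hs⟩⟩
    · exact ⟨(v, c), fun _ => ⟨hv, Or.inl hc⟩, fun _ => ⟨hv, Or.inr ⟨hc, hf⟩⟩⟩
  · by_cases hp : p.picked = Finset.univ
    · exact ⟨(Classical.arbitrary V, ⟨0, hk⟩), fun h => absurd hp h, fun h => absurd h hF⟩
    · obtain ⟨x, hx1, hx2⟩ := exists_turn G hk p hp
      exact ⟨x, fun _ => ⟨hx1, hx2⟩, fun h => absurd h hF⟩

/-- Bob's strategy for the horizon `T`. -/
noncomputable def bobStrat [Nonempty V] (G : SimpleGraph V) (hk : 1 ≤ k) (T : ℕ)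
    (h : List (V × Fin k)) : V × Fin k :=
  Classical.choose (exists_bob G hk (T - h.length - 1) (posOf h))

theorem bobStrat_legal [Nonempty V] (G : SimpleGraph V) (hk : 1 ≤ k) (T : ℕ)
    (m : ℕ → V × Fin k) (t : ℕ) (hm : m t = bobStrat G hk T (hist m t)) :
    Proper G m t ∨ Fatal G m t := by
  have h := (Classical.choose_spec
    (exists_bob G hk (T - (hist m t).length - 1) (posOf (hist m t)))).1
  rw [posOf_hist] at h
  obtain ⟨h1, h2⟩ := h (picked_ne_univ m t)
  have hm' : Classical.choose
    (exists_bob G hk (T - (hist m t).length - 1) (posOf (hist m t))) = m t := hm.symm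
  rw [posOf_hist] at hm'
  rw [hm'] at h1 h2
  rcases h2 with h2 | h2
  · exact Or.inl ⟨h1, h2⟩
  · exact Or.inr ⟨h1, h2⟩

/-- While all turns are proper, Bob keeps his forced win. -/
theorem force_invariant [Nonempty V] (G : SimpleGraph V) (hk : 1 ≤ k) (T : ℕ)
    (hF : Force G T false (start : Pos V k)) (m : ℕ → V × Fin k)
    (hm : ∀ t, Odd t → m t = bobStrat G hk T (hist m t)) (t : ℕ) (ht : t ≤ T)
    (hp : ∀ s < t, Proper G m s) :
    (Even t → Force G (T - t) false (posAt m t)) ∧ (Odd t → Force G (T - t) true (posAt m t)) := by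
  induction t with
  | zero => exact ⟨fun _ => hF, fun h => by simp at h⟩
  | succ t ih =>
    obtain ⟨ih1, ih2⟩ := ih (by omega) (fun s hs => hp s (by omega))
    have hpt := hp t (by omega)
    have hT : T - t = (T - (t + 1)) + 1 := by omega
    constructor
    · intro he
      have ho : Odd t := by
        rcases Nat.even_or_odd t with h | h
        · exact absurd he (by simp [Nat.even_add_one, h])
        · exact h
      have h3 := ih2 ho
      rw [hT] at h3
      have h4 := (Classical.choose_spec
        (exists_bob G hk (T - (hist m t).length - 1) (posOf (hist m t)))).2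
      have hmt : Classical.choose
        (exists_bob G hk (T - (hist m t).length - 1) (posOf (hist m t))) = m t := (hm t ho).symm
      rw [hmt] at h4
      rw [posOf_hist, hist_length] at h4
      have hT2 : T - t - 1 = T - (t + 1) := by omega
      rw [hT2] at h4
      obtain ⟨h5, h6 | ⟨h7, h8⟩⟩ := h4 h3
      · exact absurd hpt.2 (h6 _)
      · exact h8
    · intro ho
      have he : Even t := by
        rcases Nat.even_or_odd t with h | h
        · exact h
        · exact absurd ho (by simp [Nat.odd_add_one, h])
      have h3 := ih1 he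
      rw [hT] at h3
      exact h3 (m t).1 hpt.1 (m t).2 hpt.2

/-- If Bob forces a win within `T` turns then every play against his strategy has a fatal turn
before `T`. -/
theorem exists_fatal [Nonempty V] (G : SimpleGraph V) (hk : 1 ≤ k) (T : ℕ)
    (hF : Force G T false (start : Pos V k)) (m : ℕ → V × Fin k)
    (hm : ∀ t, Odd t → m t = bobStrat G hk T (hist m t))
    (hl : ∀ t, Even t → Proper G m t ∨ Fatal G m t) :
    ∃ t < T, Fatal G m t ∧ ∀ s < t, Proper G m s := by
  have hall : ∀ t, Proper G m t ∨ Fatal G m t := by
    intro t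
    rcases Nat.even_or_odd t with h | h
    · exact hl t h
    · exact bobStrat_legal G hk T m t (hm t h)
  by_contra hcon
  push Not at hcon
  have hprop : ∀ t, t ≤ T → ∀ s < t, Proper G m s := by
    intro t
    induction t with
    | zero => intro _ s hs; omega
    | succ t ih =>
      intro ht s hs
      have h1 := ih (by omega)
      rcases Nat.lt_succ_iff_lt_or_eq.1 hs with h | h
      · exact h1 s h
      · subst h
        rcases hall s with h2 | h2
        · exact h2
        · obtain ⟨s', hs', hns⟩ := hcon s (by omega) h2
          exact absurd (h1 s' hs') hns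
  have hend := force_invariant G hk T hF m hm T le_rfl (hprop T le_rfl)
  rw [Nat.sub_self] at hend
  rcases Nat.even_or_odd T with h | h
  · exact hend.1 h
  · exact hend.2 h

theorem bobWinsWithin_of_force [Nonempty V] (G : SimpleGraph V) (hk : 1 ≤ k) (r : ℕ)
    (hF : Force G (r * Fintype.card V) false (start : Pos V k)) : BobWinsWithin G k r :=
  ⟨bobStrat G hk (r * Fintype.card V), fun m hm hl => by
    obtain ⟨t, ht, h1, h2⟩ := exists_fatal G hk _ hF m hm hl
    exact ⟨t, ht, h1, h2⟩⟩

theorem not_aliceWins_of_force [Nonempty V] (G : SimpleGraph V) (hk : 1 ≤ k) (T : ℕ)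
    (hF : Force G T false (start : Pos V k)) : ¬ AliceWins G k := by
  rintro ⟨σ, hσ⟩
  set f : List (V × Fin k) → V × Fin k := fun h =>
    if Even h.length then σ h else bobStrat G hk T h with hf
  have hev : ∀ t, Even t → playOf f t = σ (hist (playOf f) t) := by
    intro t ht
    rw [playOf_eq f t, hf]
    simp only [hist_length, ht, if_true]
  have hod : ∀ t, Odd t → playOf f t = bobStrat G hk T (hist (playOf f) t) := by
    intro t ht
    rw [playOf_eq f t, hf]
    have : ¬ Even t := Nat.not_even_iff_odd.2 ht
    simp only [hist_length, this, if_false]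
  have hP := hσ (playOf f) hev (fun t ht => bobStrat_legal G hk T _ t (hod t ht))
  obtain ⟨t, _, h1, _⟩ := exists_fatal G hk T hF (playOf f) hod (fun t _ => Or.inl (hP t))
  exact not_proper_and_fatal (hP t) h1

/-! ### Alice's side -/

/-- A response of Alice in a position from which Bob cannot force a win within `T + 1` turns. -/
theorem exists_alice [Nonempty V] (G : SimpleGraph V) (hk : 1 ≤ k) (T : ℕ) (p : Pos V k) :
    ∃ x : V × Fin k, (p.picked ≠ Finset.univ → x.1 ∉ p.picked ∧
        (Allowed G p x.1 x.2 ∨ Stuck G p x.1)) ∧
      (¬ Force G (T + 1) false p → x.1 ∉ p.picked ∧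
        (Allowed G p x.1 x.2 ∧ ¬ Force G T true (step p x))) := by
  by_cases hF : Force G (T + 1) false p
  · by_cases hp : p.picked = Finset.univ
    · exact ⟨(Classical.arbitrary V, ⟨0, hk⟩), fun h => absurd hp h, fun h => absurd hF h⟩
    · obtain ⟨x, hx1, hx2⟩ := exists_turn G hk p hp
      exact ⟨x, fun _ => ⟨hx1, hx2⟩, fun h => absurd hF h⟩
  · have hF' := hF
    unfold Force at hF'
    push Not at hF'
    obtain ⟨v, hv, c, hc, hf⟩ := hF'
    exact ⟨(v, c), fun _ => ⟨hv, Or.inl hc⟩, fun _ => ⟨hv, hc, hf⟩⟩

/-- Alice's strategy for the horizon `T`. -/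
noncomputable def aliceStrat [Nonempty V] (G : SimpleGraph V) (hk : 1 ≤ k) (T : ℕ)
    (h : List (V × Fin k)) : V × Fin k :=
  Classical.choose (exists_alice G hk (T - h.length - 1) (posOf h))

theorem aliceStrat_legal [Nonempty V] (G : SimpleGraph V) (hk : 1 ≤ k) (T : ℕ)
    (m : ℕ → V × Fin k) (t : ℕ) (hm : m t = aliceStrat G hk T (hist m t)) :
    Proper G m t ∨ Fatal G m t := by
  have h := (Classical.choose_spec
    (exists_alice G hk (T - (hist m t).length - 1) (posOf (hist m t)))).1
  have hm' : Classical.choose
    (exists_alice G hk (T - (hist m t).length - 1) (posOf (hist m t))) = m t := hm.symm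
  rw [hm', posOf_hist] at h
  obtain ⟨h1, h2⟩ := h (picked_ne_univ m t)
  rcases h2 with h2 | h2
  · exact Or.inl ⟨h1, h2⟩
  · exact Or.inr ⟨h1, h2⟩

/-- While all turns are proper, Alice keeps Bob from a forced win within the horizon. -/
theorem noForce_invariant [Nonempty V] (G : SimpleGraph V) (hk : 1 ≤ k) (T : ℕ)
    (hF : ¬ Force G T false (start : Pos V k)) (m : ℕ → V × Fin k)
    (hm : ∀ t, Even t → m t = aliceStrat G hk T (hist m t)) (t : ℕ) (ht : t ≤ T)
    (hp : ∀ s < t, Proper G m s) :
    (Even t → ¬ Force G (T - t) false (posAt m t)) ∧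
      (Odd t → ¬ Force G (T - t) true (posAt m t)) := by
  induction t with
  | zero => exact ⟨fun _ => hF, fun h => by simp at h⟩
  | succ t ih =>
    obtain ⟨ih1, ih2⟩ := ih (by omega) (fun s hs => hp s (by omega))
    have hpt := hp t (by omega)
    have hT : T - t = (T - (t + 1)) + 1 := by omega
    constructor
    · intro he
      have ho : Odd t := by
        rcases Nat.even_or_odd t with h | h
        · exact absurd he (by simp [Nat.even_add_one, h])
        · exact h
      have h3 := ih2 ho
      rw [hT] at h3
      intro h4
      exact h3 ⟨(m t).1, hpt.1, Or.inr ⟨(m t).2, hpt.2, h4⟩⟩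
    · intro ho
      have he : Even t := by
        rcases Nat.even_or_odd t with h | h
        · exact h
        · exact absurd ho (by simp [Nat.odd_add_one, h])
      have h3 := ih1 he
      rw [hT] at h3
      have h4 := (Classical.choose_spec
        (exists_alice G hk (T - (hist m t).length - 1) (posOf (hist m t)))).2
      have hmt : Classical.choose
        (exists_alice G hk (T - (hist m t).length - 1) (posOf (hist m t))) = m t :=
          (hm t he).symm
      rw [hmt] at h4
      rw [posOf_hist, hist_length] at h4
      have hT2 : T - t - 1 = T - (t + 1) := by omega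
      rw [hT2] at h4
      exact (h4 h3).2.2

theorem not_bobWinsWithin_of_not_force [Nonempty V] (G : SimpleGraph V) (hk : 1 ≤ k) (r : ℕ)
    (hF : ¬ Force G (r * Fintype.card V) false (start : Pos V k)) : ¬ BobWinsWithin G k r := by
  rintro ⟨τ, hτ⟩
  set T := r * Fintype.card V with hT
  set f : List (V × Fin k) → V × Fin k := fun h =>
    if Even h.length then aliceStrat G hk T h else τ h with hf
  have hev : ∀ t, Even t → playOf f t = aliceStrat G hk T (hist (playOf f) t) := by
    intro t ht
    rw [playOf_eq f t, hf]
    simp only [hist_length, ht, if_true]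
  have hod : ∀ t, Odd t → playOf f t = τ (hist (playOf f) t) := by
    intro t ht
    rw [playOf_eq f t, hf]
    have : ¬ Even t := Nat.not_even_iff_odd.2 ht
    simp only [hist_length, this, if_false]
  obtain ⟨t, ht, h1, h2⟩ := hτ (playOf f) hod
    (fun t ht => aliceStrat_legal G hk T _ t (hev t ht))
  have hinv := noForce_invariant G hk T hF (playOf f) hev t (le_of_lt ht) h2
  have hTt : T - t = (T - t - 1) + 1 := by omega
  rcases Nat.even_or_odd t with he | ho
  · -- Alice's own turn is never fatal
    have h3 := hinv.1 he
    rw [hTt] at h3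
    have h4 := (Classical.choose_spec
      (exists_alice G hk (T - (hist (playOf f) t).length - 1) (posOf (hist (playOf f) t)))).2
    have hmt : Classical.choose
      (exists_alice G hk (T - (hist (playOf f) t).length - 1) (posOf (hist (playOf f) t))) =
        playOf f t := (hev t he).symm
    rw [hmt] at h4
    rw [posOf_hist, hist_length] at h4
    exact h1.2 _ (h4 h3).2.1
  · have h3 := hinv.2 ho
    rw [hTt] at h3
    exact h3 ⟨(playOf f t).1, h1.1, Or.inl h1.2⟩

/-! ### Many colours -/

/-- With at least two more colours than the degree of every vertex, Alice wins. -/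
theorem aliceWins_of_degree [Nonempty V] (G : SimpleGraph V) [DecidableRel G.Adj]
    (hdeg : ∀ v, G.degree v + 2 ≤ k) : AliceWins G k := by
  have hk : 1 ≤ k := by
    have := hdeg (Classical.arbitrary V)
    omega
  have hfree : ∀ (p : Pos V k) (v : V), ¬ Stuck G p v := by
    intro p v hs
    have hsub : (Finset.univ : Finset (Fin k)) ⊆
        (insert v (G.neighborFinset v)).biUnion (fun w => (p.col w).toFinset) := by
      intro c _
      have h1 := hs c
      unfold Allowed at h1
      rw [Finset.mem_biUnion]
      by_cases h2 : p.col v = some c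
      · exact ⟨v, Finset.mem_insert_self _ _, by simp [h2]⟩
      · have h3 : ¬ ∀ w, G.Adj v w → p.col w ≠ some c := fun h => h1 ⟨h2, h⟩
        push Not at h3
        obtain ⟨w, hw, hc⟩ := h3
        exact ⟨w, Finset.mem_insert_of_mem (by simpa using hw), by simp [hc]⟩
    have hc := Finset.card_le_card hsub
    have hc2 : ((insert v (G.neighborFinset v)).biUnion
        (fun w => (p.col w).toFinset)).card ≤ (insert v (G.neighborFinset v)).card * 1 := by
      apply Finset.card_biUnion_le_card_mul
      intro w _
      cases p.col w <;> simp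
    have hc3 : (insert v (G.neighborFinset v)).card ≤ G.degree v + 1 := by
      rw [← SimpleGraph.card_neighborFinset_eq_degree]
      exact Finset.card_insert_le _ _
    rw [Finset.card_univ, Fintype.card_fin] at hc
    have := hdeg v
    omega
  have hex : ∀ p : Pos V k, ∃ x : V × Fin k, p.picked ≠ Finset.univ →
      x.1 ∉ p.picked ∧ Allowed G p x.1 x.2 := by
    intro p
    by_cases hp : p.picked = Finset.univ
    · exact ⟨(Classical.arbitrary V, ⟨0, hk⟩), fun h => absurd hp h⟩
    · obtain ⟨x, hx1, hx2 | hx2⟩ := exists_turn G hk p hp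
      · exact ⟨x, fun _ => ⟨hx1, hx2⟩⟩
      · exact absurd hx2 (hfree p x.1)
  choose g hg using hex
  refine ⟨fun h => g (posOf h), fun m hev hod t => ?_⟩
  rcases Nat.even_or_odd t with he | ho
  · have h1 := hg (posOf (hist m t))
    have he' : m t = g (posOf (hist m t)) := hev t he
    rw [← he', posOf_hist] at h1
    exact h1 (picked_ne_univ m t)
  · rcases hod t ho with h | h
    · exact h
    · exact absurd h.2 (hfree _ _)

end Pool.Agent.X69.EVC
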