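import Mathlib
import Pool.Agent.X69.EVC

/-! A solver for the eternal vertex colouring game on the bowtie, with its correctness proof. -/

namespace Pool.Agent.X69.EVC

/-- The bowtie: two triangles `0,3,4` and `1,2,4` sharing the vertex `4`. -/
def bow : SimpleGraph (Fin 5) where
  Adj v w := v ≠ w ∧ (v = 4 ∨ w = 4 ∨ v.val + w.val = 3)
  symm := ⟨fun v w h => ⟨h.1.symm, by
    rcases h.2 with h | h | h
    · exact Or.inr (Or.inl h)
    · exact Or.inl h
    · exact Or.inr (Or.inr (by omega))⟩⟩
  loopless := ⟨fun v h => h.1 rfl⟩

instance : DecidableRel bow.Adj := fun v w =>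
  inferInstanceAs (Decidable (v ≠ w ∧ (v = 4 ∨ w = 4 ∨ v.val + w.val = 3)))

/-- Entry of a list, `0` outside. -/
def nth : List ℕ → ℕ → ℕ
  | [], _ => 0
  | a :: _, 0 => a
  | _ :: t, n + 1 => nth t n

/-- Change an entry of a list. -/
def put : List ℕ → ℕ → ℕ → List ℕ
  | [], _, _ => []
  | _ :: t, 0, x => x :: t
  | a :: t, n + 1, x => a :: put t n x

/-- Neighbours in the bowtie. -/
def nb : ℕ → List ℕ
  | 0 => [3, 4]
  | 1 => [2, 4]
  | 2 => [1, 4]
  | 3 => [0, 4]
  | _ => [0, 1, 2, 3]

/-- The colour `c` is allowed for `v`. -/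
def okc (L : List ℕ) (v c : ℕ) : Bool :=
  !(Nat.beq (nth L v) c) && (nb v).all (fun w => !(Nat.beq (nth L w) c))

/-- All vertices are picked. -/
def full (P : List ℕ) : Bool := P.all (fun x => Nat.beq x 1)

/-- Start a new round if all vertices are picked. -/
def reset (P : List ℕ) : List ℕ := bif full P then [0, 0, 0, 0, 0] else P

/-- The solver: can Bob force a win within the given number of turns? -/
def solve (cs : List ℕ) : ℕ → Bool → List ℕ → List ℕ → Bool
  | 0, _, _, _ => false
  | T + 1, true, L, P =>
      ([0, 4, 3, 1, 2].any (fun v => !(Nat.beq (nth P v) 1) && cs.all (fun c => !(okc L v c)))) ||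
      ([0, 4, 3, 1, 2].any (fun v => !(Nat.beq (nth P v) 1) &&
        cs.any (fun c => okc L v c && solve cs T false (put L v c) (reset (put P v 1)))))
  | T + 1, false, L, P =>
      [0, 4, 3, 1, 2].all (fun v => Nat.beq (nth P v) 1 ||
        cs.all (fun c => !(okc L v c) || solve cs T true (put L v c) (reset (put P v 1))))

theorem beq_iff (a b : ℕ) : Nat.beq a b = true ↔ a = b :=
  ⟨Nat.eq_of_beq_eq_true, fun h => h ▸ Nat.beq_refl a⟩

theorem nth_put (L : List ℕ) (v x w : ℕ) (hv : v < L.length) :
    nth (put L v x) w = if w = v then x else nth L w := by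
  induction L generalizing v w with
  | nil => simp at hv
  | cons a t ih =>
    cases v with
    | zero => cases w with
      | zero => simp [put, nth]
      | succ w => simp [put, nth]
    | succ v => cases w with
      | zero => simp [put, nth]
      | succ w =>
        simp only [put, nth, Nat.add_right_cancel_iff]
        exact ih v w (by simpa using hv)

theorem length_put (L : List ℕ) (v x : ℕ) : (put L v x).length = L.length := by
  induction L generalizing v with
  | nil => rfl
  | cons a t ih =>
    cases v with
    | zero => rfl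
    | succ v => simp [put, ih]

/-- Decode a colour. -/
def colOf (k : ℕ) (x : ℕ) : Option (Fin k) :=
  if h : 1 ≤ x ∧ x ≤ k then some ⟨x - 1, by omega⟩ else none

theorem colOf_eq_some {k x : ℕ} {c : Fin k} : colOf k x = some c ↔ x = c.val + 1 := by
  unfold colOf
  split_ifs with h
  · simp only [Option.some.injEq, Fin.ext_iff]
    omega
  · constructor
    · intro h2; cases h2
    · intro h2; exact absurd ⟨by omega, by have := c.isLt; omega⟩ h

/-- Decode a position. -/
def toPos (k : ℕ) (L P : List ℕ) : Pos (Fin 5) k :=
  ⟨fun v => colOf k (nth L v.val), Finset.univ.filter (fun v => nth P v.val = 1)⟩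

theorem adj_iff_nb : ∀ v w : Fin 5, bow.Adj v w ↔ w.val ∈ nb v.val := by decide

theorem nb_lt : ∀ v : Fin 5, ∀ w ∈ nb v.val, w < 5 := by decide

theorem allowed_iff (k : ℕ) (L P : List ℕ) (v : Fin 5) (c : Fin k) :
    Allowed bow (toPos k L P) v c ↔ okc L v.val (c.val + 1) = true := by
  unfold Allowed okc toPos
  simp only [Bool.and_eq_true, Bool.not_eq_true', List.all_eq_true, ne_eq, colOf_eq_some]
  constructor
  · rintro ⟨h1, h2⟩
    refine ⟨?_, ?_⟩
    · rw [← Bool.not_eq_true, beq_iff]; exact h1
    · intro w hw
      have hw5 := nb_lt v w hw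
      have := h2 ⟨w, hw5⟩ ((adj_iff_nb v ⟨w, hw5⟩).2 hw)
      rw [← Bool.not_eq_true, beq_iff]; exact this
  · rintro ⟨h1, h2⟩
    refine ⟨?_, ?_⟩
    · rw [← Bool.not_eq_true, beq_iff] at h1; exact h1
    · intro w hw
      have := h2 w.val ((adj_iff_nb v w).1 hw)
      rw [← Bool.not_eq_true, beq_iff] at this; exact this

theorem full_iff (P : List ℕ) (hP : P.length = 5) :
    full P = true ↔ ∀ w : Fin 5, nth P w.val = 1 := by
  match P, hP with
  | [a, b, c, d, e], _ =>
    simp only [full, List.all_cons, List.all_nil, Bool.and_eq_true, Bool.and_true,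
      beq_iff]
    constructor
    · rintro ⟨h0, h1, h2, h3, h4⟩ w
      fin_cases w <;> simp [nth, *]
    · intro h
      exact ⟨h 0, h 1, h 2, h 3, h 4⟩

theorem step_toPos (k : ℕ) (L P : List ℕ) (hL : L.length = 5) (hP : P.length = 5) (v : Fin 5)
    (c : Fin k) :
    step (toPos k L P) (v, c) = toPos k (put L v.val (c.val + 1)) (reset (put P v.val 1)) := by
  have hv5 := v.isLt
  unfold step toPos
  congr 1
  · funext w
    by_cases hwv : w = v
    · subst hwv
      rw [Function.update_self, nth_put _ _ _ _ (by omega), if_pos rfl]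
      exact (colOf_eq_some.2 rfl).symm
    · rw [Function.update_of_ne hwv, nth_put _ _ _ _ (by omega), if_neg]
      intro h; exact hwv (Fin.ext h)
  · have hmem : ∀ w : Fin 5, w ∈ insert v (Finset.univ.filter (fun v : Fin 5 => nth P v.val = 1)) ↔
        nth (put P v.val 1) w.val = 1 := by
      intro w
      rw [Finset.mem_insert, Finset.mem_filter, nth_put _ _ _ _ (by omega)]
      by_cases hwv : w = v
      · subst hwv; simp
      · have : ¬ w.val = v.val := fun h => hwv (Fin.ext h)
        simp [hwv, this]
    have hlen : (put P v.val 1).length = 5 := by rw [length_put, hP]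
    have hfull : full (put P v.val 1) = true ↔
        insert v (Finset.univ.filter (fun v : Fin 5 => nth P v.val = 1)) = Finset.univ := by
      rw [full_iff _ hlen, Finset.eq_univ_iff_forall]
      exact forall_congr' (fun w => (hmem w).symm)
    unfold reset
    by_cases hf : full (put P v.val 1) = true
    · simp only [hf, cond_true, if_pos (hfull.1 hf)]
      ext w
      simp only [Finset.notMem_empty, Finset.mem_filter, Finset.mem_univ, true_and, false_iff]
      fin_cases w <;> simp [nth]
    · have hf' : full (put P v.val 1) = false := by simpa using hf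
      simp only [hf', cond_false, if_neg (fun h => hf (hfull.2 h))]
      ext w
      rw [hmem w]
      simp

theorem length_reset (P : List ℕ) (hP : P.length = 5) : (reset P).length = 5 := by
  unfold reset
  cases full P <;> simp [hP]

/-- Correctness of the solver. -/
theorem solve_iff (k : ℕ) (cs : List ℕ) (hcs : ∀ c, c ∈ cs ↔ 1 ≤ c ∧ c ≤ k) (T : ℕ) :
    ∀ (b : Bool) (L P : List ℕ), L.length = 5 → P.length = 5 →
      (solve cs T b L P = true ↔ Force bow T b (toPos k L P)) := by
  have hvs : ∀ v, v ∈ ([0, 4, 3, 1, 2] : List ℕ) ↔ v < 5 := by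
    intro v
    simp only [List.mem_cons, List.not_mem_nil, or_false]
    omega
  induction T with
  | zero => intro b L P _ _; simp [solve, Force]
  | succ T ih =>
    intro b L P hL hP
    have hpk : ∀ v : Fin 5, v ∉ (toPos k L P).picked ↔ nth P v.val ≠ 1 := by
      intro v; simp [toPos]
    have hstep : ∀ (v : Fin 5) (c : Fin k) (b' : Bool),
        (solve cs T b' (put L v.val (c.val + 1)) (reset (put P v.val 1)) = true ↔
          Force bow T b' (step (toPos k L P) (v, c))) := by
      intro v c b'
      rw [step_toPos k L P hL hP v c]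
      exact ih b' _ _ (by rw [length_put, hL]) (length_reset _ (by rw [length_put, hP]))
    cases b with
    | true =>
      simp only [solve, Bool.or_eq_true, List.any_eq_true, Bool.and_eq_true, Bool.not_eq_true',
        List.all_eq_true]
      unfold Force
      constructor
      · rintro (⟨v, hv, hp, hs⟩ | ⟨v, hv, hp, c, hc, hok, hso⟩)
        · have hv5 := (hvs v).1 hv
          rw [← Bool.not_eq_true, beq_iff] at hp
          refine ⟨⟨v, hv5⟩, (hpk _).2 hp, Or.inl ?_⟩
          intro c hc
          have h1 := hs (c.val + 1) ((hcs _).2 ⟨by omega, by have := c.isLt; omega⟩)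
          rw [allowed_iff] at hc
          rw [hc] at h1
          cases h1
        · have hv5 := (hvs v).1 hv
          rw [← Bool.not_eq_true, beq_iff] at hp
          obtain ⟨hc1, hc2⟩ := (hcs c).1 hc
          refine ⟨⟨v, hv5⟩, (hpk _).2 hp, Or.inr ⟨⟨c - 1, by omega⟩, ?_, ?_⟩⟩
          · rw [allowed_iff]
            have : c - 1 + 1 = c := by omega
            simpa [this] using hok
          · rw [← hstep]
            have : c - 1 + 1 = c := by omega
            simpa [this] using hso
      · rintro ⟨v, hv, hs | ⟨c, hc, hf⟩⟩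
        · refine Or.inl ⟨v.val, (hvs _).2 v.isLt, ?_, ?_⟩
          · rw [← Bool.not_eq_true, beq_iff]; exact (hpk v).1 hv
          · intro c hc
            obtain ⟨hc1, hc2⟩ := (hcs c).1 hc
            have h1 := hs ⟨c - 1, by omega⟩
            rw [allowed_iff] at h1
            have : c - 1 + 1 = c := by omega
            simpa [this] using h1
        · refine Or.inr ⟨v.val, (hvs _).2 v.isLt, ?_, c.val + 1,
            (hcs _).2 ⟨by omega, by have := c.isLt; omega⟩, ?_, ?_⟩
          · rw [← Bool.not_eq_true, beq_iff]; exact (hpk v).1 hv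
          · exact (allowed_iff k L P v c).1 hc
          · exact (hstep v c false).2 hf
    | false =>
      simp only [solve, Bool.or_eq_true, Bool.not_eq_true', List.all_eq_true]
      unfold Force
      constructor
      · intro h v hv c hc
        rcases h v.val ((hvs _).2 v.isLt) with h1 | h1
        · rw [beq_iff] at h1
          exact absurd h1 ((hpk v).1 hv)
        · rcases h1 (c.val + 1) ((hcs _).2 ⟨by omega, by have := c.isLt; omega⟩) with h2 | h2
          · rw [allowed_iff] at hc
            rw [hc] at h2; cases h2
          · exact (hstep v c true).1 h2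
      · intro h v hv
        have hv5 := (hvs v).1 hv
        by_cases hp : nth P v = 1
        · left; rw [beq_iff]; exact hp
        · right
          intro c hc
          obtain ⟨hc1, hc2⟩ := (hcs c).1 hc
          have : c - 1 + 1 = c := by omega
          by_cases hok : okc L v c = true
          · right
            have h1 := h ⟨v, hv5⟩ ((hpk ⟨v, hv5⟩).2 hp) ⟨c - 1, by omega⟩
              ((allowed_iff k L P ⟨v, hv5⟩ ⟨c - 1, by omega⟩).2 (by simpa [this] using hok))
            rw [← hstep] at h1
            simpa [this] using h1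
          · left; simpa using hok

theorem toPos_start (k : ℕ) : toPos k [0, 0, 0, 0, 0] [0, 0, 0, 0, 0] = start := by
  unfold toPos start
  congr 1
  funext v
  fin_cases v <;> simp [nth, colOf]

theorem force_start_iff (k : ℕ) (cs : List ℕ) (hcs : ∀ c, c ∈ cs ↔ 1 ≤ c ∧ c ≤ k) (T : ℕ) :
    solve cs T false [0, 0, 0, 0, 0] [0, 0, 0, 0, 0] = true ↔
      Force bow T false (start : Pos (Fin 5) k) := by
  rw [← toPos_start]
  exact solve_iff k cs hcs T false _ _ rfl rfl

end Pool.Agent.X69.EVC
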