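import Mathlib
import Pool.Agent.X69.EVCBow

/-! Values of the eternal vertex colouring game on the bowtie. -/

namespace Pool.Agent.X69.EVC

set_option maxRecDepth 100000

theorem val1 : solve [1] 5 false [0, 0, 0, 0, 0] [0, 0, 0, 0, 0] = true := by decide +kernel

theorem val2 : solve [1, 2] 5 false [0, 0, 0, 0, 0] [0, 0, 0, 0, 0] = true := by decide +kernel

theorem val3 : solve [1, 2, 3] 6 false [0, 0, 0, 0, 0] [0, 0, 0, 0, 0] = true := by
  decide +kernel

theorem val4a : solve [1, 2, 3, 4] 10 false [0, 0, 0, 0, 0] [0, 0, 0, 0, 0] = false := by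
  decide +kernel

theorem val4b : solve [1, 2, 3, 4] 15 false [0, 0, 0, 0, 0] [0, 0, 0, 0, 0] = true := by
  decide +kernel

theorem mem1 : ∀ c, c ∈ ([1] : List ℕ) ↔ 1 ≤ c ∧ c ≤ 1 := by
  intro c; simp only [List.mem_cons, List.not_mem_nil, or_false]; omega

theorem mem2 : ∀ c, c ∈ ([1, 2] : List ℕ) ↔ 1 ≤ c ∧ c ≤ 2 := by
  intro c; simp only [List.mem_cons, List.not_mem_nil, or_false]; omega

theorem mem3 : ∀ c, c ∈ ([1, 2, 3] : List ℕ) ↔ 1 ≤ c ∧ c ≤ 3 := by
  intro c; simp only [List.mem_cons, List.not_mem_nil, or_false]; omega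

theorem mem4 : ∀ c, c ∈ ([1, 2, 3, 4] : List ℕ) ↔ 1 ≤ c ∧ c ≤ 4 := by
  intro c; simp only [List.mem_cons, List.not_mem_nil, or_false]; omega

theorem lt_chiInf : 4 < chiInf bow := by
  have hne : ({k | 1 ≤ k ∧ AliceWins bow k} : Set ℕ).Nonempty :=
    ⟨6, by norm_num, aliceWins_of_degree bow (by decide)⟩
  have hmem : 1 ≤ chiInf bow ∧ AliceWins bow (chiInf bow) := Nat.sInf_mem hne
  by_contra hlt
  have hle : chiInf bow ≤ 4 := by omega
  obtain ⟨h1, h2⟩ := hmem
  generalize chiInf bow = q at *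
  interval_cases q
  · exact not_aliceWins_of_force bow (by norm_num) 5 ((force_start_iff 1 [1] mem1 5).1 val1) h2
  · exact not_aliceWins_of_force bow (by norm_num) 5
      ((force_start_iff 2 [1, 2] mem2 5).1 val2) h2
  · exact not_aliceWins_of_force bow (by norm_num) 6
      ((force_start_iff 3 [1, 2, 3] mem3 6).1 val3) h2
  · exact not_aliceWins_of_force bow (by norm_num) 15
      ((force_start_iff 4 [1, 2, 3, 4] mem4 15).1 val4b) h2

theorem not_within_two : ¬ BobWinsWithin bow 4 2 := by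
  apply not_bobWinsWithin_of_not_force bow (by norm_num) 2
  intro h
  have h2 : Force bow 10 false (start : Pos (Fin 5) 4) := by simpa using h
  rw [← force_start_iff 4 [1, 2, 3, 4] mem4 10, val4a] at h2
  cases h2

theorem within_three : BobWinsWithin bow 4 3 := by
  apply bobWinsWithin_of_force bow (by norm_num) 3
  have h2 : Force bow 15 false (start : Pos (Fin 5) 4) :=
    (force_start_iff 4 [1, 2, 3, 4] mem4 15).1 val4b
  simpa using h2

/-- More rounds do not hurt Bob. -/
theorem bobWinsWithin_mono {V : Type} [Fintype V] [DecidableEq V] (G : SimpleGraph V) {k r s : ℕ}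
    (hrs : r ≤ s) (h : BobWinsWithin G k r) : BobWinsWithin G k s := by
  obtain ⟨τ, hτ⟩ := h
  refine ⟨τ, fun m h1 h2 => ?_⟩
  obtain ⟨t, ht, h3, h4⟩ := hτ m h1 h2
  exact ⟨t, lt_of_lt_of_le ht (Nat.mul_le_mul_right _ hrs), h3, h4⟩

theorem rounds_bow : rounds bow 4 = 3 := by
  apply le_antisymm
  · exact Nat.sInf_le within_three
  · have hne : ({r | BobWinsWithin bow 4 r} : Set ℕ).Nonempty := ⟨3, within_three⟩
    have hmem : BobWinsWithin bow 4 (rounds bow 4) := Nat.sInf_mem hne
    by_contra hlt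
    exact not_within_two (bobWinsWithin_mono bow (by omega) hmem)

end Pool.Agent.X69.EVC
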