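import Mathlib

/-! The domatic number game with a palette of `k` colours. -/

namespace Pool.Agent.X69.Domatic

/-- Every colour class of the (possibly incomplete) colouring `c` is dominating: every closed
neighbourhood contains every colour. -/
def AllDominate {V : Type} (H : SimpleGraph V) (k : ℕ) (c : V → Option (Fin k)) : Prop :=
  ∀ i : Fin k, ∀ x : V, ∃ y : V, (y = x ∨ H.Adj x y) ∧ c y = some i

open Classical in
/-- `AliceWins H k n aliceToMove c`: Alice has a winning strategy in the domatic number game on `H`
with palette `Fin k` from the position in which the vertex `v` has colour `c v` (`none` meaning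
uncoloured), when `n` more moves are to be made and Alice is to move iff `aliceToMove = true`.
A move picks an uncoloured vertex and gives it a colour. -/
def AliceWins {V : Type} (H : SimpleGraph V) (k : ℕ) :
    ℕ → Bool → (V → Option (Fin k)) → Prop
  | 0, _, c => AllDominate H k c
  | n + 1, true, c => ∃ v : V, ∃ i : Fin k, c v = none ∧
      AliceWins H k n false (Function.update c v (some i))
  | n + 1, false, c => ∀ v : V, ∀ i : Fin k, c v = none →
      AliceWins H k n true (Function.update c v (some i))

/-- Alice wins the A-game on `H` with palette `[k]`: she moves first and the game lasts until all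
vertices are coloured. -/
def AGame {V : Type} [Fintype V] (H : SimpleGraph V) (k : ℕ) : Prop :=
  AliceWins H k (Fintype.card V) true (fun _ => none)

/-- Alice wins the B-game on `H` with palette `[k]`: Bob moves first. -/
def BGame {V : Type} [Fintype V] (H : SimpleGraph V) (k : ℕ) : Prop :=
  AliceWins H k (Fintype.card V) false (fun _ => none)

/-- recolouring map -/
def down (k : ℕ) (hk : 1 ≤ k) (i : Fin (k + 1)) : Fin k :=
  if h : i.1 < k then ⟨i.1, h⟩ else ⟨0, hk⟩

theorem update_down {V : Type} (k : ℕ) (hk : 1 ≤ k) (c : V → Option (Fin (k + 1))) (v : V)
    (i : Fin (k + 1)) :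
    (fun x => ((open Classical in Function.update c v (some i)) x).map (down k hk)) =
      (open Classical in
        Function.update (fun x => (c x).map (down k hk)) v (some (down k hk i))) := by
  classical
  funext x
  by_cases hx : x = v
  · subst hx; simp
  · simp [Function.update_of_ne hx]

theorem step {V : Type} (H : SimpleGraph V) (k : ℕ) (hk : 1 ≤ k) :
    ∀ (n : ℕ) (b : Bool) (c : V → Option (Fin (k + 1))),
      AliceWins H (k + 1) n b c → AliceWins H k n b (fun x => (c x).map (down k hk)) := by
  classical
  intro n
  induction n with
  | zero =>
    intro b c h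
    intro i x
    obtain ⟨y, hy, hcy⟩ := h (Fin.castSucc i) x
    refine ⟨y, hy, ?_⟩
    simp [hcy, down]
  | succ n ih =>
    intro b c h
    cases b with
    | true =>
      obtain ⟨v, i, hv, h'⟩ := h
      refine ⟨v, down k hk i, by simp [hv], ?_⟩
      have := ih _ _ h'
      rw [update_down] at this
      convert this using 2
    | false =>
      intro v i hv
      have hv' : c v = none := by simpa using hv
      have h' := ih _ _ (h v (Fin.castSucc i) hv')
      rw [update_down] at h'
      have hd : down k hk (Fin.castSucc i) = i := by
        simp [down]
      rw [hd] at h'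
      convert h' using 2

theorem mono_one {V : Type} (H : SimpleGraph V) (k : ℕ) (hk : 1 ≤ k) (n : ℕ) (b : Bool)
    (h : AliceWins H (k + 1) n b (fun _ => none)) : AliceWins H k n b (fun _ => none) := by
  have := step H k hk n b _ h
  simpa using this

/-- Alice wins with one colour. -/
theorem wins_one {V : Type} [Fintype V] (H : SimpleGraph V) :
    ∀ (n : ℕ) (b : Bool) (c : V → Option (Fin 1)),
      (open Classical in (Finset.univ.filter (fun v => c v = none)).card = n) →
      AliceWins H 1 n b c := by
  classical
  intro n
  induction n with
  | zero =>
    intro b c hc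
    intro i x
    refine ⟨x, Or.inl rfl, ?_⟩
    have : c x ≠ none := by
      intro h
      have h2 : x ∈ Finset.univ.filter (fun v => c v = none) := by simp [h]
      have h3 := Finset.card_eq_zero.mp (by convert hc)
      rw [h3] at h2
      simp at h2
    obtain ⟨j, hj⟩ := Option.ne_none_iff_exists'.mp this
    rw [hj]
    congr 1
    exact Subsingleton.elim _ _
  | succ n ih =>
    intro b c hc
    have key : ∀ v : V, ∀ i : Fin 1, c v = none →
        (open Classical in
          (Finset.univ.filter (fun w => Function.update c v (some i) w = none)).card = n) := by
      intro v i hv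
      have : (Finset.univ.filter (fun w => Function.update c v (some i) w = none)) =
          (Finset.univ.filter (fun w => c w = none)).erase v := by
        ext w
        by_cases hw : w = v
        · subst hw; simp
        · simp [Function.update_of_ne hw, hw]
      have h2 : (Finset.univ.filter (fun w => Function.update c v (some i) w = none)).card = n := by
        rw [this, Finset.card_erase_of_mem (by simp [hv])]
        have : (Finset.univ.filter (fun w => c w = none)).card = n + 1 := by convert hc
        omega
      convert h2
    cases b with
    | true =>
      have hpos : 0 < (Finset.univ.filter (fun v => c v = none)).card := by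
        have : (Finset.univ.filter (fun w => c w = none)).card = n + 1 := by convert hc
        omega
      obtain ⟨v, hv⟩ := Finset.card_pos.mp hpos
      have hv' : c v = none := by simpa using hv
      exact ⟨v, 0, hv', ih _ _ (key v 0 hv')⟩
    | false =>
      intro v i hv
      exact ih _ _ (key v i hv)

/-- If Alice wins (palette nonempty, all vertices get coloured), there is a colouring in which all
colours appear, so `k ≤ card V` for nonempty `V`. -/
theorem exists_final {V : Type} [Fintype V] (H : SimpleGraph V) (k : ℕ) (hk : 1 ≤ k) :
    ∀ (n : ℕ) (b : Bool) (c : V → Option (Fin k)),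
      (open Classical in (Finset.univ.filter (fun v => c v = none)).card = n) →
      AliceWins H k n b c → ∃ d : V → Option (Fin k), AllDominate H k d := by
  classical
  intro n
  induction n with
  | zero => intro b c _ h; exact ⟨c, h⟩
  | succ n ih =>
    intro b c hc h
    have key : ∀ v : V, ∀ i : Fin k, c v = none →
        (open Classical in
          (Finset.univ.filter (fun w => Function.update c v (some i) w = none)).card = n) := by
      intro v i hv
      have : (Finset.univ.filter (fun w => Function.update c v (some i) w = none)) =
          (Finset.univ.filter (fun w => c w = none)).erase v := by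
        ext w
        by_cases hw : w = v
        · subst hw; simp
        · simp [Function.update_of_ne hw, hw]
      have h2 : (Finset.univ.filter (fun w => Function.update c v (some i) w = none)).card = n := by
        rw [this, Finset.card_erase_of_mem (by simp [hv])]
        have : (Finset.univ.filter (fun w => c w = none)).card = n + 1 := by convert hc
        omega
      convert h2
    cases b with
    | true =>
      obtain ⟨v, i, hv, h'⟩ := h
      exact ih _ _ (key v i hv) h'
    | false =>
      have hpos : 0 < (Finset.univ.filter (fun v => c v = none)).card := by
        have : (Finset.univ.filter (fun w => c w = none)).card = n + 1 := by convert hc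
        omega
      obtain ⟨v, hv⟩ := Finset.card_pos.mp hpos
      have hv' : c v = none := by simpa using hv
      exact ih _ _ (key v ⟨0, hk⟩ hv') (h v ⟨0, hk⟩ hv')

theorem le_card {V : Type} [Fintype V] [Nonempty V] (H : SimpleGraph V) (k : ℕ) (hk : 1 ≤ k)
    (b : Bool) (h : AliceWins H k (Fintype.card V) b (fun _ => none)) : k ≤ Fintype.card V := by
  classical
  obtain ⟨d, hd⟩ := exists_final H k hk (Fintype.card V) b (fun _ => none) (by simp) h
  obtain ⟨x⟩ := (inferInstance : Nonempty V)
  choose f hf1 hf2 using fun i => hd i x
  have hinj : Function.Injective f := by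
    intro i j hij
    have h1 := hf2 i
    rw [hij, hf2 j] at h1
    exact (Option.some.inj h1).symm
  simpa using Fintype.card_le_of_injective f hinj

theorem main {V : Type} [Fintype V] (H : SimpleGraph V) (b : Bool) :
    (∀ k : ℕ, 1 ≤ k → AliceWins H (k + 1) (Fintype.card V) b (fun _ => none) →
      AliceWins H k (Fintype.card V) b (fun _ => none)) ∧
    (Nonempty V → ∃ m : ℕ, 1 ≤ m ∧ ∀ k : ℕ, 1 ≤ k →
      (AliceWins H k (Fintype.card V) b (fun _ => none) ↔ k ≤ m)) := by
  classical
  refine ⟨fun k hk h => mono_one H k hk _ b h, fun hne => ?_⟩
  let P : ℕ → Prop := fun k => 1 ≤ k ∧ AliceWins H k (Fintype.card V) b (fun _ => none)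
  have hP1 : P 1 := ⟨le_rfl, wins_one H _ b _ (by simp)⟩
  have hbound : ∀ k, P k → k ≤ Fintype.card V := fun k hk => le_card H k hk.1 b hk.2
  have hdown : ∀ k, ∀ j, 1 ≤ j → P (j + k) → P j := by
    intro k
    induction k with
    | zero => intro j _ h; exact h
    | succ k ih =>
      intro j hj h
      exact ih j hj ⟨by omega, mono_one H (j + k) (by omega) _ b h.2⟩
  let m := Nat.findGreatest P (Fintype.card V)
  have hm : P m := Nat.findGreatest_spec (hbound 1 hP1) hP1
  refine ⟨m, hm.1, fun k hk => ⟨fun h => ?_, fun h => ?_⟩⟩
  · exact Nat.le_findGreatest (hbound k ⟨hk, h⟩) ⟨hk, h⟩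
  · have : P k := hdown (m - k) k hk (by rw [Nat.add_sub_cancel' h]; exact hm)
    exact this.2

end Pool.Agent.X69.Domatic
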