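import Mathlib
import Pool.Agent.X69.Domatic

/-! Game domatic numbers of some disjoint unions. -/

namespace Pool.Agent.X69.Domatic

/-- The game domatic number: the largest palette size `k ≥ 1` for which Alice wins the A-game. -/
noncomputable def gammaA {V : Type} [Fintype V] (H : SimpleGraph V) : ℕ :=
  sSup {k : ℕ | 1 ≤ k ∧ AGame H k}

/-- The delayed game domatic number: the largest palette size `k ≥ 1` for which Alice wins the
B-game. -/
noncomputable def gammaB {V : Type} [Fintype V] (H : SimpleGraph V) : ℕ :=
  sSup {k : ℕ | 1 ≤ k ∧ BGame H k}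

section general

variable {V : Type} [Fintype V]

open Classical in
/-- number of uncoloured vertices -/
noncomputable def unc {k : ℕ} (c : V → Option (Fin k)) : ℕ :=
  (Finset.univ.filter (fun v => c v = none)).card

open Classical in
theorem unc_update {k : ℕ} (c : V → Option (Fin k)) (v : V) (i : Fin k) (hv : c v = none) :
    unc (Function.update c v (some i)) + 1 = unc c := by
  unfold unc
  have : (Finset.univ.filter (fun w => Function.update c v (some i) w = none)) =
      (Finset.univ.filter (fun w => c w = none)).erase v := by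
    ext w
    by_cases hw : w = v
    · subst hw; simp
    · simp [hw]
  have h2 : v ∈ Finset.univ.filter (fun w => c w = none) := by simp [hv]
  have h3 : 0 < (Finset.univ.filter (fun w => c w = none)).card := Finset.card_pos.mpr ⟨v, h2⟩
  rw [this, Finset.card_erase_of_mem h2]
  omega

theorem exists_unc {k : ℕ} (c : V → Option (Fin k)) (h : 0 < unc c) : ∃ v, c v = none := by
  classical
  unfold unc at h
  obtain ⟨v, hv⟩ := Finset.card_pos.mp h
  exact ⟨v, by simpa using hv⟩

open Classical in
theorem exists_final' (H : SimpleGraph V) (k : ℕ) (hk : 1 ≤ k) :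
    ∀ (n : ℕ) (b : Bool) (c : V → Option (Fin k)), unc c = n → AliceWins H k n b c →
      ∃ d : V → Option (Fin k), (∀ v i, c v = some i → d v = some i) ∧ AllDominate H k d := by
  intro n
  induction n with
  | zero => intro b c _ h; exact ⟨c, fun _ _ h => h, h⟩
  | succ n ih =>
    intro b c hc h
    have ext : ∀ v i, c v = none → ∀ d : V → Option (Fin k),
        (∀ w j, Function.update c v (some i) w = some j → d w = some j) →
        ∀ w j, c w = some j → d w = some j := by
      intro v i hv d hd w j hw
      apply hd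
      have hwv : w ≠ v := by rintro rfl; rw [hv] at hw; exact absurd hw (by simp)
      rw [Function.update_of_ne hwv]
      exact hw
    cases b with
    | true =>
      obtain ⟨v, i, hv, h'⟩ := h
      have h1 := unc_update c v i hv
      obtain ⟨d, hd1, hd2⟩ := ih false _ (by omega) h'
      exact ⟨d, ext v i hv d hd1, hd2⟩
    | false =>
      obtain ⟨v, hv⟩ := exists_unc c (by omega)
      have h1 := unc_update c v ⟨0, hk⟩ hv
      obtain ⟨d, hd1, hd2⟩ := ih true _ (by omega) (h v ⟨0, hk⟩ hv)
      exact ⟨d, ext v _ hv d hd1, hd2⟩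

theorem too_big (H : SimpleGraph V) (k : ℕ) (x : V) (S : Finset V)
    (hS : ∀ y, y = x ∨ H.Adj x y → y ∈ S) (hk : S.card < k) (n : ℕ) (b : Bool)
    (c : V → Option (Fin k)) (hc : unc c = n) : ¬ AliceWins H k n b c := by
  classical
  intro h
  obtain ⟨d, _, hd⟩ := exists_final' H k (by omega) n b c hc h
  choose f hf1 hf2 using fun i => hd i x
  have hinj : Function.Injective f := by
    intro i j hij
    have h1 := hf2 i
    rw [hij, hf2 j] at h1
    exact (Option.some.inj h1).symm
  have h1 : Finset.univ.image f ⊆ S := by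
    intro y hy
    obtain ⟨i, _, rfl⟩ := Finset.mem_image.mp hy
    exact hS _ (hf1 i)
  have h2 := Finset.card_le_card h1
  rw [Finset.card_image_of_injective _ hinj, Finset.card_univ, Fintype.card_fin] at h2
  omega

theorem dup (H : SimpleGraph V) (k : ℕ) (x : V) (S : Finset V)
    (hS : ∀ y, y = x ∨ H.Adj x y → y ∈ S) (hk : S.card ≤ k) (u v : V) (hu : u ∈ S) (hv : v ∈ S)
    (huv : u ≠ v) (n : ℕ) (b : Bool) (c : V → Option (Fin k)) (i : Fin k) (hcu : c u = some i)
    (hcv : c v = some i) (hc : unc c = n) : ¬ AliceWins H k n b c := by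
  classical
  intro h
  obtain ⟨d, hd0, hd⟩ := exists_final' H k (by have := i.2; omega) n b c hc h
  choose f hf1 hf2 using fun i => hd i x
  have hinj : Function.Injective f := by
    intro i j hij
    have h1 := hf2 i
    rw [hij, hf2 j] at h1
    exact (Option.some.inj h1).symm
  have h1 : Finset.univ.image f ⊆ S := by
    intro y hy
    obtain ⟨i, _, rfl⟩ := Finset.mem_image.mp hy
    exact hS _ (hf1 i)
  have h2 : Finset.univ.image f = S := by
    apply Finset.eq_of_subset_of_card_le h1
    rw [Finset.card_image_of_injective _ hinj, Finset.card_univ, Fintype.card_fin]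
    exact hk
  have h3 : ∀ w ∈ S, ∀ j, c w = some j → w = f j := by
    intro w hw j hj
    rw [← h2] at hw
    obtain ⟨j', _, hj'⟩ := Finset.mem_image.mp hw
    have h4 := hf2 j'
    rw [hj', hd0 w j hj] at h4
    rw [Option.some.inj h4]
    exact hj'.symm
  exact huv ((h3 u hu i hcu).trans (h3 v hv i hcv).symm)

open Classical in
/-- Bob copies a colour inside a tight closed neighbourhood. -/
theorem bob_copy (H : SimpleGraph V) (k : ℕ) (x : V) (S : Finset V)
    (hS : ∀ y, y = x ∨ H.Adj x y → y ∈ S) (hk : S.card ≤ k) (u v : V) (hu : u ∈ S) (hv : v ∈ S)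
    (n : ℕ) (c : V → Option (Fin k)) (i : Fin k) (hcu : c u = some i) (hcv : c v = none)
    (hc : unc c = n + 1) : ¬ AliceWins H k (n + 1) false c := by
  intro h
  have huv : u ≠ v := by rintro rfl; rw [hcv] at hcu; exact absurd hcu (by simp)
  have h1 := unc_update c v i hcv
  refine dup H k x S hS hk u v hu hv huv n true _ i ?_ ?_ (by omega) (h v i hcv)
  · rw [Function.update_of_ne huv]; exact hcu
  · simp

open Classical in
/-- Bob destroys a closed neighbourhood of three vertices in the game with three colours. -/
theorem bob_three (H : SimpleGraph V) (x : V) (a b d : V) (hab : a ≠ b) (had : a ≠ d)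
    (hbd : b ≠ d) (hS : ∀ y, y = x ∨ H.Adj x y → y ∈ ({a, b, d} : Finset V)) (n : ℕ)
    (c : V → Option (Fin 3)) (ha : c a = none) (hb : c b = none) (hd : c d = none)
    (hc : unc c = n + 2) : ¬ AliceWins H 3 (n + 2) false c := by
  intro h
  have hS3 : ({a, b, d} : Finset V).card ≤ 3 := Finset.card_le_three
  have h1 := h a 0 ha
  have e1 := unc_update c a 0 ha
  obtain ⟨w, i, hw, h2⟩ := h1
  have e2 := unc_update _ w i hw
  have hwa : w ≠ a := by rintro rfl; simp at hw
  -- one of b, d is still uncoloured
  have ca : Function.update (Function.update c a (some 0)) w (some i) a = some 0 := by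
    rw [Function.update_of_ne hwa.symm]; simp
  by_cases hwb : w = b
  · have cd : Function.update (Function.update c a (some 0)) w (some i) d = none := by
      rw [Function.update_of_ne (by rw [hwb]; exact hbd.symm), Function.update_of_ne had.symm]
      exact hd
    obtain ⟨m, rfl⟩ : ∃ m, n = m + 1 := by
      refine ⟨n - 1, ?_⟩
      have : 0 < unc (Function.update (Function.update c a (some 0)) w (some i)) := by
        unfold unc
        exact Finset.card_pos.mpr ⟨d, by simp [cd]⟩
      omega
    exact bob_copy H 3 x _ hS hS3 a d (by simp) (by simp) m _ 0 ca cd (by omega) h2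
  · have cb : Function.update (Function.update c a (some 0)) w (some i) b = none := by
      rw [Function.update_of_ne (fun e => hwb e.symm), Function.update_of_ne hab.symm]
      exact hb
    obtain ⟨m, rfl⟩ : ∃ m, n = m + 1 := by
      refine ⟨n - 1, ?_⟩
      have : 0 < unc (Function.update (Function.update c a (some 0)) w (some i)) := by
        unfold unc
        exact Finset.card_pos.mpr ⟨b, by simp [cb]⟩
      omega
    exact bob_copy H 3 x _ hS hS3 a b (by simp) (by simp) m _ 0 ca cb (by omega) h2

theorem unc_start (k : ℕ) : unc (fun _ : V => (none : Option (Fin k))) = Fintype.card V := by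
  classical
  simp [unc]

theorem three_A (H : SimpleGraph V) (x : V) (a b d : V) (hab : a ≠ b) (had : a ≠ d)
    (hbd : b ≠ d) (hS' : ∀ y, y = x ∨ H.Adj x y → y = a ∨ y = b ∨ y = d)
    (hcard : 3 ≤ Fintype.card V) : ¬ AGame H 3 := by
  classical
  have hS : ∀ y, y = x ∨ H.Adj x y → y ∈ ({a, b, d} : Finset V) := fun y hy => by
    simpa using hS' y hy
  intro h
  unfold AGame at h
  have e0 := unc_start (V := V) 3
  have hS3 : ({a, b, d} : Finset V).card ≤ 3 := Finset.card_le_three
  obtain ⟨n, hn⟩ : ∃ n, Fintype.card V = n + 1 + 1 + 1 := ⟨Fintype.card V - 3, by omega⟩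
  rw [hn] at h e0
  obtain ⟨w, i, hw, h1⟩ := h
  have e1 := unc_update (fun _ : V => (none : Option (Fin 3))) w i hw
  by_cases hwa : w = a
  · exact bob_copy H 3 x _ hS hS3 a b (by simp) (by simp) (n + 1) _ i (by simp [hwa])
      (by rw [Function.update_of_ne (by rw [hwa]; exact hab.symm)]) (by omega) h1
  · by_cases hwb : w = b
    · exact bob_copy H 3 x _ hS hS3 b a (by simp) (by simp) (n + 1) _ i (by simp [hwb])
        (by rw [Function.update_of_ne (by rw [hwb]; exact hab)]) (by omega) h1
    · by_cases hwd : w = d
      · exact bob_copy H 3 x _ hS hS3 d a (by simp) (by simp) (n + 1) _ i (by simp [hwd])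
          (by rw [Function.update_of_ne (by rw [hwd]; exact had)]) (by omega) h1
      · exact bob_three H x a b d hab had hbd hS n _
          (by rw [Function.update_of_ne (fun e => hwa e.symm)])
          (by rw [Function.update_of_ne (fun e => hwb e.symm)])
          (by rw [Function.update_of_ne (fun e => hwd e.symm)]) (by omega) h1

theorem three_B (H : SimpleGraph V) (x : V) (a b d : V) (hab : a ≠ b) (had : a ≠ d)
    (hbd : b ≠ d) (hS' : ∀ y, y = x ∨ H.Adj x y → y = a ∨ y = b ∨ y = d)
    (hcard : 3 ≤ Fintype.card V) : ¬ BGame H 3 := by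
  classical
  have hS : ∀ y, y = x ∨ H.Adj x y → y ∈ ({a, b, d} : Finset V) := fun y hy => by
    simpa using hS' y hy
  intro h
  unfold BGame at h
  have e0 := unc_start (V := V) 3
  obtain ⟨n, hn⟩ : ∃ n, Fintype.card V = n + 2 := ⟨Fintype.card V - 2, by omega⟩
  rw [hn] at h e0
  exact bob_three H x a b d hab had hbd hS n _ rfl rfl rfl e0 h

open Classical in
/-- Bob wins by parity when an isolated edge `x y` is untouched, Alice is to move and the number of
uncoloured vertices is even. -/
theorem bob_parity (H : SimpleGraph V) (x y : V) (hxy : x ≠ y)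
    (hx : ∀ z, z = x ∨ H.Adj x z → z ∈ ({x, y} : Finset V)) :
    ∀ (m : ℕ) (c : V → Option (Fin 2)), c x = none → c y = none → unc c = 2 * m + 2 →
      ¬ AliceWins H 2 (2 * m + 2) true c := by
  have hS2 : ({x, y} : Finset V).card ≤ 2 := Finset.card_le_two
  intro m
  induction m with
  | zero =>
    intro c hcx hcy hc h
    obtain ⟨w, i, hw, h1⟩ := h
    have e1 := unc_update c w i hw
    by_cases hwx : w = x
    · exact bob_copy H 2 x _ hx hS2 x y (by simp) (by simp) 0 _ i (by simp [hwx])
        (by rw [Function.update_of_ne (by rw [hwx]; exact hxy.symm)]; exact hcy) (by omega) h1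
    · by_cases hwy : w = y
      · exact bob_copy H 2 x _ hx hS2 y x (by simp) (by simp) 0 _ i (by simp [hwy])
          (by rw [Function.update_of_ne (by rw [hwy]; exact hxy)]; exact hcx) (by omega) h1
      · -- impossible: three uncoloured vertices
        exfalso
        have hsub : ({x, y, w} : Finset V) ⊆ Finset.univ.filter (fun v => c v = none) := by
          intro z hz
          simp only [Finset.mem_insert, Finset.mem_singleton] at hz
          rcases hz with rfl | rfl | rfl
          · simp [hcx]
          · simp [hcy]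
          · simp [hw]
        have h3 := Finset.card_le_card hsub
        have h4 : ({x, y, w} : Finset V).card = 3 := by
          rw [Finset.card_eq_three]
          exact ⟨x, y, w, hxy, fun e => hwx e.symm, fun e => hwy e.symm, rfl⟩
        unfold unc at hc
        omega
  | succ m ih =>
    intro c hcx hcy hc h
    obtain ⟨w, i, hw, h1⟩ := h
    have e1 := unc_update c w i hw
    by_cases hwx : w = x
    · exact bob_copy H 2 x _ hx hS2 x y (by simp) (by simp) (2 * m + 2) _ i (by simp [hwx])
        (by rw [Function.update_of_ne (by rw [hwx]; exact hxy.symm)]; exact hcy) (by omega) h1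
    · by_cases hwy : w = y
      · exact bob_copy H 2 x _ hx hS2 y x (by simp) (by simp) (2 * m + 2) _ i (by simp [hwy])
          (by rw [Function.update_of_ne (by rw [hwy]; exact hxy)]; exact hcx) (by omega) h1
      · -- Bob colours another vertex
        have hex : ∃ z, z ≠ x ∧ z ≠ y ∧ Function.update c w (some i) z = none := by
          by_contra hcon
          push Not at hcon
          have hsub : Finset.univ.filter (fun v => Function.update c w (some i) v = none) ⊆
              ({x, y} : Finset V) := by
            intro z hz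
            rw [Finset.mem_filter] at hz
            by_contra h5
            simp only [Finset.mem_insert, Finset.mem_singleton, not_or] at h5
            exact hcon z h5.1 h5.2 hz.2
          have h6 := Finset.card_le_card hsub
          have h7 : (Finset.univ.filter (fun v => Function.update c w (some i) v = none)).card =
              unc (Function.update c w (some i)) := rfl
          omega
        obtain ⟨z, hzx, hzy, hz⟩ := hex
        have h2 := h1 z 0 hz
        have e2 := unc_update _ z 0 hz
        refine ih _ ?_ ?_ (by omega) h2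
        · rw [Function.update_of_ne hzx.symm, Function.update_of_ne (fun e => hwx e.symm)]
          exact hcx
        · rw [Function.update_of_ne hzy.symm, Function.update_of_ne (fun e => hwy e.symm)]
          exact hcy

theorem parity_A (H : SimpleGraph V) (x y : V) (hxy : x ≠ y)
    (hx' : ∀ z, z = x ∨ H.Adj x z → z = x ∨ z = y) (hev : Even (Fintype.card V)) :
    ¬ AGame H 2 := by
  classical
  have hx : ∀ z, z = x ∨ H.Adj x z → z ∈ ({x, y} : Finset V) := fun z hz => by
    simpa using hx' z hz
  intro h
  unfold AGame at h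
  have e0 := unc_start (V := V) 2
  have h2 : 2 ≤ Fintype.card V := by
    have : ({x, y} : Finset V).card ≤ Fintype.card V := Finset.card_le_univ _
    rwa [Finset.card_pair hxy] at this
  obtain ⟨m, hm⟩ : ∃ m, Fintype.card V = 2 * m + 2 := by
    obtain ⟨r, hr⟩ := hev
    exact ⟨r - 1, by omega⟩
  rw [hm] at h e0
  exact bob_parity H x y hxy hx m _ rfl rfl e0 h

theorem parity_B (H : SimpleGraph V) (x y z : V) (hxy : x ≠ y) (hzx : z ≠ x) (hzy : z ≠ y)
    (hx' : ∀ z, z = x ∨ H.Adj x z → z = x ∨ z = y) (hodd : Odd (Fintype.card V)) :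
    ¬ BGame H 2 := by
  classical
  have hx : ∀ z, z = x ∨ H.Adj x z → z ∈ ({x, y} : Finset V) := fun z hz => by
    simpa using hx' z hz
  intro h
  unfold BGame at h
  have e0 := unc_start (V := V) 2
  have h3 : 3 ≤ Fintype.card V := by
    have h1 : ({x, y, z} : Finset V).card ≤ Fintype.card V := Finset.card_le_univ _
    have h4 : ({x, y, z} : Finset V).card = 3 := by
      rw [Finset.card_eq_three]
      exact ⟨x, y, z, hxy, hzx.symm, hzy.symm, rfl⟩
    omega
  obtain ⟨m, hm⟩ : ∃ m, Fintype.card V = (2 * m + 2) + 1 := by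
    obtain ⟨r, hr⟩ := hodd
    exact ⟨r - 1, by omega⟩
  rw [hm] at h e0
  have h1 := h z 0 rfl
  have e1 := unc_update (fun _ : V => (none : Option (Fin 2))) z 0 rfl
  exact bob_parity H x y hxy hx m _ (by rw [Function.update_of_ne hzx.symm])
    (by rw [Function.update_of_ne hzy.symm]) (by omega) h1

theorem gammaA_eq (H : SimpleGraph V) (m : ℕ) (hm : 1 ≤ m) (h1 : AGame H m)
    (h2 : ¬ AGame H (m + 1)) : gammaA H = m := by
  have hmono := (main H true).1
  have hup : ∀ j, AGame H (m + 1 + j) → AGame H (m + 1) := by
    intro j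
    induction j with
    | zero => exact id
    | succ j ih => intro h; exact ih (hmono _ (by omega) h)
  have hle : ∀ k ∈ {k : ℕ | 1 ≤ k ∧ AGame H k}, k ≤ m := by
    rintro k ⟨_, hk⟩
    by_contra hcon
    push Not at hcon
    apply h2
    apply hup (k - (m + 1))
    rwa [Nat.add_sub_cancel' (by omega)]
  apply le_antisymm
  · exact csSup_le ⟨m, hm, h1⟩ hle
  · exact le_csSup ⟨m, hle⟩ ⟨hm, h1⟩

theorem gammaB_eq (H : SimpleGraph V) (m : ℕ) (hm : 1 ≤ m) (h1 : BGame H m)
    (h2 : ¬ BGame H (m + 1)) : gammaB H = m := by
  have hmono := (main H false).1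
  have hup : ∀ j, BGame H (m + 1 + j) → BGame H (m + 1) := by
    intro j
    induction j with
    | zero => exact id
    | succ j ih => intro h; exact ih (hmono _ (by omega) h)
  have hle : ∀ k ∈ {k : ℕ | 1 ≤ k ∧ BGame H k}, k ≤ m := by
    rintro k ⟨_, hk⟩
    by_contra hcon
    push Not at hcon
    apply h2
    apply hup (k - (m + 1))
    rwa [Nat.add_sub_cancel' (by omega)]
  apply le_antisymm
  · exact csSup_le ⟨m, hm, h1⟩ hle
  · exact le_csSup ⟨m, hle⟩ ⟨hm, h1⟩

theorem AGame_one (H : SimpleGraph V) : AGame H 1 := wins_one H _ _ _ (by simp)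

theorem BGame_one (H : SimpleGraph V) : BGame H 1 := wins_one H _ _ _ (by simp)

end general

/-- all masks contain both colours -/
def dom2 (N : List ℕ) (a b : ℕ) : Bool :=
  N.all (fun m => (!Nat.beq (a &&& m) 0) && (!Nat.beq (b &&& m) 0))

/-- some mask is completely coloured in one colour, or (on Bob's turn) almost -/
def bad2 (N : List ℕ) (t : Bool) (a b : ℕ) : Bool :=
  N.any (fun m => (Nat.beq (a &&& m) 0 || Nat.beq (b &&& m) 0) &&
    (let u := m &&& (a ||| b)
     Nat.beq u m || (!t && (let r := m - u; Nat.beq (r &&& (r - 1)) 0))))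

/-- search for a winning strategy of Alice in the two colour game; `a`, `b` are the bit masks of the
two colour classes -/
def solve (nv : ℕ) (N : List ℕ) : ℕ → Bool → ℕ → ℕ → Bool
  | 0, _, a, b => dom2 N a b
  | n + 1, true, a, b => dom2 N a b || (!bad2 N true a b &&
      (List.range nv).any (fun v => !(a ||| b).testBit v &&
        (solve nv N n false (a ||| 2 ^ v) b || solve nv N n false a (b ||| 2 ^ v))))
  | n + 1, false, a, b => dom2 N a b || (!bad2 N false a b &&
      (List.range nv).all (fun v => (a ||| b).testBit v ||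
        (solve nv N n true (a ||| 2 ^ v) b && solve nv N n true a (b ||| 2 ^ v))))

section solver

variable {V : Type} [Fintype V]

/-- the masks describe the position -/
def Rel {nv : ℕ} (e : Fin nv ≃ V) (a b : ℕ) (c : V → Option (Fin 2)) : Prop :=
  ∀ i : Fin nv, (a.testBit i = true → c (e i) = some 0) ∧ (b.testBit i = true → c (e i) = some 1) ∧
    (c (e i) = none ↔ (a ||| b).testBit i = false)

theorem alldom_mono (H : SimpleGraph V) : ∀ (n : ℕ) (t : Bool) (c : V → Option (Fin 2)),
    unc c = n → AllDominate H 2 c → AliceWins H 2 n t c := by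
  classical
  intro n
  induction n with
  | zero => intro t c _ h; exact h
  | succ n ih =>
    intro t c hc h
    have key : ∀ v i, c v = none → AllDominate H 2 (Function.update c v (some i)) := by
      intro v i hv j x
      obtain ⟨y, hy1, hy2⟩ := h j x
      refine ⟨y, hy1, ?_⟩
      rw [Function.update_of_ne]
      · exact hy2
      · rintro rfl; rw [hv] at hy2; exact absurd hy2 (by simp)
    cases t with
    | true =>
      obtain ⟨v, hv⟩ := exists_unc c (by omega)
      have := unc_update c v 0 hv
      refine ⟨v, 0, hv, ?_⟩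
      convert ih false _ (by omega) (key v 0 hv)
    | false =>
      intro v i hv
      have := unc_update c v i hv
      convert ih true _ (by omega) (key v i hv)

theorem dom2_sound (H : SimpleGraph V) {nv : ℕ} (e : Fin nv ≃ V) (N : List ℕ)
    (hN : ∀ x : V, ∃ m ∈ N, m < 2 ^ nv ∧
      ∀ i : Fin nv, m.testBit i = true → e i = x ∨ H.Adj x (e i))
    (a b : ℕ) (c : V → Option (Fin 2)) (hR : Rel e a b c) (h : dom2 N a b = true) :
    AllDominate H 2 c := by
  intro j x
  obtain ⟨m, hm, hlt, hmx⟩ := hN x
  unfold dom2 at h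
  rw [List.all_eq_true] at h
  have h1 := h m hm
  rw [Bool.and_eq_true, Bool.not_eq_true', Bool.not_eq_true'] at h1
  have h1a : a &&& m ≠ 0 := by
    intro h0
    rw [h0] at h1
    exact absurd h1.1 (by decide)
  have h1b : b &&& m ≠ 0 := by
    intro h0
    rw [h0] at h1
    exact absurd h1.2 (by decide)
  have key : ∀ z : ℕ, z &&& m ≠ 0 → ∃ i : Fin nv, z.testBit i = true ∧ m.testBit i = true := by
    intro z hz
    obtain ⟨i, hi⟩ := Nat.exists_testBit_of_ne_zero hz
    rw [Nat.testBit_and, Bool.and_eq_true] at hi
    have hilt : i < nv := by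
      by_contra hcon
      push Not at hcon
      have : m < 2 ^ i := lt_of_lt_of_le hlt (Nat.pow_le_pow_right (by norm_num) hcon)
      rw [Nat.testBit_lt_two_pow this] at hi
      exact absurd hi.2 (by simp)
    exact ⟨⟨i, hilt⟩, hi⟩
  have hj : j = 0 ∨ j = 1 := by omega
  rcases hj with rfl | rfl
  · obtain ⟨i, hi1, hi2⟩ := key a h1a
    exact ⟨e i, hmx i hi2, (hR i).1 hi1⟩
  · obtain ⟨i, hi1, hi2⟩ := key b h1b
    exact ⟨e i, hmx i hi2, (hR i).2.1 hi1⟩

open Classical in
theorem rel_a {nv : ℕ} (e : Fin nv ≃ V) (a b : ℕ) (c : V → Option (Fin 2)) (hR : Rel e a b c)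
    (v : Fin nv) (hv : (a ||| b).testBit v = false) :
    Rel e (a ||| 2 ^ (v : ℕ)) b (Function.update c (e v) (some 0)) := by
  intro i
  obtain ⟨h1, h2, h3⟩ := hR i
  rw [Nat.testBit_or, Bool.or_eq_false_iff] at hv
  by_cases hiv : i = v
  · subst hiv
    refine ⟨fun _ => by simp, fun h => ?_, ?_⟩
    · rw [hv.2] at h; exact absurd h (by simp)
    · simp [Nat.testBit_two_pow]
  · have hne : e i ≠ e v := fun h => hiv (e.injective h)
    have hiv' : ¬ (v : ℕ) = (i : ℕ) := fun h => hiv (Fin.ext h.symm)
    rw [Function.update_of_ne hne]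
    have h4 : (a ||| 2 ^ (v : ℕ)).testBit i = a.testBit i := by
      rw [Nat.testBit_or, Nat.testBit_two_pow]; simp [hiv']
    refine ⟨fun h => h1 (by rw [← h4]; exact h), h2, ?_⟩
    rw [h3, Nat.testBit_or, Nat.testBit_or, h4]

open Classical in
theorem rel_b {nv : ℕ} (e : Fin nv ≃ V) (a b : ℕ) (c : V → Option (Fin 2)) (hR : Rel e a b c)
    (v : Fin nv) (hv : (a ||| b).testBit v = false) :
    Rel e a (b ||| 2 ^ (v : ℕ)) (Function.update c (e v) (some 1)) := by
  intro i
  obtain ⟨h1, h2, h3⟩ := hR i
  rw [Nat.testBit_or, Bool.or_eq_false_iff] at hv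
  by_cases hiv : i = v
  · subst hiv
    refine ⟨fun h => ?_, fun _ => by simp, ?_⟩
    · rw [hv.1] at h; exact absurd h (by simp)
    · simp [Nat.testBit_two_pow]
  · have hne : e i ≠ e v := fun h => hiv (e.injective h)
    have hiv' : ¬ (v : ℕ) = (i : ℕ) := fun h => hiv (Fin.ext h.symm)
    rw [Function.update_of_ne hne]
    have h4 : (b ||| 2 ^ (v : ℕ)).testBit i = b.testBit i := by
      rw [Nat.testBit_or, Nat.testBit_two_pow]; simp [hiv']
    refine ⟨h1, fun h => h2 (by rw [← h4]; exact h), ?_⟩
    rw [h3, Nat.testBit_or, Nat.testBit_or, h4]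

theorem solve_sound (H : SimpleGraph V) {nv : ℕ} (e : Fin nv ≃ V) (N : List ℕ)
    (hN : ∀ x : V, ∃ m ∈ N, m < 2 ^ nv ∧
      ∀ i : Fin nv, m.testBit i = true → e i = x ∨ H.Adj x (e i)) :
    ∀ (n : ℕ) (t : Bool) (a b : ℕ) (c : V → Option (Fin 2)), unc c = n → Rel e a b c →
      solve nv N n t a b = true → AliceWins H 2 n t c := by
  classical
  intro n
  induction n with
  | zero =>
    intro t a b c _ hR h
    exact dom2_sound H e N hN a b c hR h
  | succ n ih =>
    intro t a b c hc hR h
    cases t with
    | true =>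
      simp only [solve, Bool.or_eq_true, Bool.and_eq_true] at h
      rcases h with h | ⟨_, h⟩
      · exact alldom_mono H _ _ _ hc (dom2_sound H e N hN a b c hR h)
      · rw [List.any_eq_true] at h
        obtain ⟨v, hv, h⟩ := h
        rw [List.mem_range] at hv
        rw [Bool.and_eq_true, Bool.or_eq_true, Bool.not_eq_true'] at h
        obtain ⟨h1, h2⟩ := h
        have hcv : c (e ⟨v, hv⟩) = none := (hR ⟨v, hv⟩).2.2.mpr h1
        rcases h2 with h2 | h2
        · refine ⟨e ⟨v, hv⟩, 0, hcv, ?_⟩
          have e1 := unc_update c (e ⟨v, hv⟩) 0 hcv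
          convert ih false _ _ _ (by omega) (rel_a e a b c hR ⟨v, hv⟩ h1) h2
        · refine ⟨e ⟨v, hv⟩, 1, hcv, ?_⟩
          have e1 := unc_update c (e ⟨v, hv⟩) 1 hcv
          convert ih false _ _ _ (by omega) (rel_b e a b c hR ⟨v, hv⟩ h1) h2
    | false =>
      simp only [solve, Bool.or_eq_true, Bool.and_eq_true] at h
      rcases h with h | ⟨_, h⟩
      · exact alldom_mono H _ _ _ hc (dom2_sound H e N hN a b c hR h)
      · rw [List.all_eq_true] at h
        intro w j hw
        obtain ⟨v, rfl⟩ := e.surjective w
        have h1 := h v (by rw [List.mem_range]; exact v.2)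
        rw [Bool.or_eq_true, Bool.and_eq_true] at h1
        have h0 : (a ||| b).testBit v = false := (hR v).2.2.mp hw
        rcases h1 with h1 | ⟨h1, h2⟩
        · rw [h0] at h1; exact absurd h1 (by simp)
        · have e1 := unc_update c (e v) j hw
          have hj : j = 0 ∨ j = 1 := by omega
          rcases hj with rfl | rfl
          · convert ih true _ _ _ (by omega) (rel_a e a b c hR v h0) h1
          · convert ih true _ _ _ (by omega) (rel_b e a b c hR v h0) h2

theorem rel_start {nv : ℕ} (e : Fin nv ≃ V) : Rel e 0 0 (fun _ => none) := by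
  intro i
  simp

end solver

end Pool.Agent.X69.Domatic
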