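import Mathlib
import Pool.Agent.X69.Domatic
import Pool.Agent.X69.DomUnion

/-! The game domatic numbers of the disjoint unions of small complete graphs. -/

namespace Pool.Agent.X69.Domatic

open SimpleGraph

/-- complete graph on two vertices -/
abbrev K2 : SimpleGraph (Fin 2) := ⊤
/-- complete graph on three vertices -/
abbrev K3 : SimpleGraph (Fin 3) := ⊤

/-- numbering of the vertices of `K3 ⊕g K3` -/
def e33 : Fin 6 ≃ Fin 3 ⊕ Fin 3 := (finSumFinEquiv (m := 3) (n := 3)).symm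
/-- numbering of the vertices of `K2 ⊕g K3` -/
def e23 : Fin 5 ≃ Fin 2 ⊕ Fin 3 := (finSumFinEquiv (m := 2) (n := 3)).symm
/-- numbering of the vertices of `K2 ⊕g (K3 ⊕g K3)` -/
def e233 : Fin 8 ≃ Fin 2 ⊕ (Fin 3 ⊕ Fin 3) :=
  (finSumFinEquiv (m := 2) (n := 6)).symm.trans (Equiv.sumCongr (Equiv.refl _) e33)

theorem top_or {W : Type} (x y : W) : y = x ∨ (⊤ : SimpleGraph W).Adj x y := by
  by_cases h : y = x
  · exact Or.inl h
  · exact Or.inr (fun h' => h h'.symm)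

theorem hN2 : ∀ x : Fin 2, ∃ m ∈ [3], m < 2 ^ 2 ∧
    ∀ i : Fin 2, m.testBit i = true → (Equiv.refl (Fin 2)) i = x ∨ K2.Adj x ((Equiv.refl _) i) :=
  fun x => ⟨3, by simp, by norm_num, fun i _ => top_or x i⟩

theorem hN3 : ∀ x : Fin 3, ∃ m ∈ [7], m < 2 ^ 3 ∧
    ∀ i : Fin 3, m.testBit i = true → (Equiv.refl (Fin 3)) i = x ∨ K3.Adj x ((Equiv.refl _) i) :=
  fun x => ⟨7, by simp, by norm_num, fun i _ => top_or x i⟩

theorem e33_l : ∀ i : Fin 6, (7 : ℕ).testBit i = true → ∃ w, e33 i = Sum.inl w := by decide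
theorem e33_r : ∀ i : Fin 6, (56 : ℕ).testBit i = true → ∃ w, e33 i = Sum.inr w := by decide
theorem e23_l : ∀ i : Fin 5, (3 : ℕ).testBit i = true → ∃ w, e23 i = Sum.inl w := by decide
theorem e23_r : ∀ i : Fin 5, (28 : ℕ).testBit i = true → ∃ w, e23 i = Sum.inr w := by decide
theorem e233_l : ∀ i : Fin 8, (3 : ℕ).testBit i = true → ∃ w, e233 i = Sum.inl w := by decide
theorem e233_rl : ∀ i : Fin 8, (28 : ℕ).testBit i = true →
    ∃ w, e233 i = Sum.inr (Sum.inl w) := by decide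
theorem e233_rr : ∀ i : Fin 8, (224 : ℕ).testBit i = true →
    ∃ w, e233 i = Sum.inr (Sum.inr w) := by decide

theorem hN33 : ∀ x : Fin 3 ⊕ Fin 3, ∃ m ∈ [7, 56], m < 2 ^ 6 ∧
    ∀ i : Fin 6, m.testBit i = true → e33 i = x ∨ (K3 ⊕g K3).Adj x (e33 i) := by
  rintro (x | x)
  · refine ⟨7, by simp, by norm_num, fun i hi => ?_⟩
    obtain ⟨w, hw⟩ := e33_l i hi
    rw [hw]
    rcases top_or x w with h | h
    · exact Or.inl (by rw [h])
    · exact Or.inr (by simpa using h)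
  · refine ⟨56, by simp, by norm_num, fun i hi => ?_⟩
    obtain ⟨w, hw⟩ := e33_r i hi
    rw [hw]
    rcases top_or x w with h | h
    · exact Or.inl (by rw [h])
    · exact Or.inr (by simpa using h)

theorem hN23 : ∀ x : Fin 2 ⊕ Fin 3, ∃ m ∈ [3, 28], m < 2 ^ 5 ∧
    ∀ i : Fin 5, m.testBit i = true → e23 i = x ∨ (K2 ⊕g K3).Adj x (e23 i) := by
  rintro (x | x)
  · refine ⟨3, by simp, by norm_num, fun i hi => ?_⟩
    obtain ⟨w, hw⟩ := e23_l i hi
    rw [hw]
    rcases top_or x w with h | h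
    · exact Or.inl (by rw [h])
    · exact Or.inr (by simpa using h)
  · refine ⟨28, by simp, by norm_num, fun i hi => ?_⟩
    obtain ⟨w, hw⟩ := e23_r i hi
    rw [hw]
    rcases top_or x w with h | h
    · exact Or.inl (by rw [h])
    · exact Or.inr (by simpa using h)

theorem hN233 : ∀ x : Fin 2 ⊕ (Fin 3 ⊕ Fin 3), ∃ m ∈ [3, 28, 224], m < 2 ^ 8 ∧
    ∀ i : Fin 8, m.testBit i = true → e233 i = x ∨ (K2 ⊕g (K3 ⊕g K3)).Adj x (e233 i) := by
  rintro (x | x | x)
  · refine ⟨3, by simp, by norm_num, fun i hi => ?_⟩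
    obtain ⟨w, hw⟩ := e233_l i hi
    rw [hw]
    rcases top_or x w with h | h
    · exact Or.inl (by rw [h])
    · exact Or.inr (by simpa using h)
  · refine ⟨28, by simp, by norm_num, fun i hi => ?_⟩
    obtain ⟨w, hw⟩ := e233_rl i hi
    rw [hw]
    rcases top_or x w with h | h
    · exact Or.inl (by rw [h])
    · exact Or.inr (by simpa using h)
  · refine ⟨224, by simp, by norm_num, fun i hi => ?_⟩
    obtain ⟨w, hw⟩ := e233_rr i hi
    rw [hw]
    rcases top_or x w with h | h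
    · exact Or.inl (by rw [h])
    · exact Or.inr (by simpa using h)

theorem sol2B : solve 2 [3] 2 false 0 0 = true := by decide
theorem sol3A : solve 3 [7] 3 true 0 0 = true := by decide
theorem sol3B : solve 3 [7] 3 false 0 0 = true := by decide
theorem sol33A : solve 6 [7, 56] 6 true 0 0 = true := by decide
theorem sol33B : solve 6 [7, 56] 6 false 0 0 = true := by decide
theorem sol23A : solve 5 [3, 28] 5 true 0 0 = true := by decide
theorem sol233B : solve 8 [3, 28, 224] 8 false 0 0 = true := by decide +kernel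

theorem winA {V : Type} [Fintype V] (H : SimpleGraph V) {nv : ℕ} (e : Fin nv ≃ V) (N : List ℕ)
    (hN : ∀ x : V, ∃ m ∈ N, m < 2 ^ nv ∧
      ∀ i : Fin nv, m.testBit i = true → e i = x ∨ H.Adj x (e i))
    (h : solve nv N nv true 0 0 = true) : AGame H 2 := by
  unfold AGame
  have e0 := unc_start (V := V) 2
  have hc : Fintype.card V = nv := by rw [← Fintype.card_congr e, Fintype.card_fin]
  rw [hc] at e0 ⊢
  exact solve_sound H e N hN nv true 0 0 _ e0 (rel_start e) h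

theorem winB {V : Type} [Fintype V] (H : SimpleGraph V) {nv : ℕ} (e : Fin nv ≃ V) (N : List ℕ)
    (hN : ∀ x : V, ∃ m ∈ N, m < 2 ^ nv ∧
      ∀ i : Fin nv, m.testBit i = true → e i = x ∨ H.Adj x (e i))
    (h : solve nv N nv false 0 0 = true) : BGame H 2 := by
  unfold BGame
  have e0 := unc_start (V := V) 2
  have hc : Fintype.card V = nv := by rw [← Fintype.card_congr e, Fintype.card_fin]
  rw [hc] at e0 ⊢
  exact solve_sound H e N hN nv false 0 0 _ e0 (rel_start e) h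

theorem bigA {V : Type} [Fintype V] (H : SimpleGraph V) (x y : V)
    (hx : ∀ z, z = x ∨ H.Adj x z → z = x ∨ z = y) : ¬ AGame H 3 := by
  classical
  have e0 := unc_start (V := V) 3
  refine too_big H 3 x {x, y} (fun z hz => by simpa using hx z hz) ?_ _ true _ e0
  exact lt_of_le_of_lt Finset.card_le_two (by norm_num)

theorem bigB {V : Type} [Fintype V] (H : SimpleGraph V) (x y : V)
    (hx : ∀ z, z = x ∨ H.Adj x z → z = x ∨ z = y) : ¬ BGame H 3 := by
  classical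
  have e0 := unc_start (V := V) 3
  refine too_big H 3 x {x, y} (fun z hz => by simpa using hx z hz) ?_ _ false _ e0
  exact lt_of_le_of_lt Finset.card_le_two (by norm_num)

theorem nb2 : ∀ z : Fin 2, z = 0 ∨ K2.Adj 0 z → z = 0 ∨ z = 1 := by
  intro z _; omega

theorem nb2s {W : Type} (H : SimpleGraph W) : ∀ z : Fin 2 ⊕ W,
    z = Sum.inl 0 ∨ (K2 ⊕g H).Adj (Sum.inl 0) z → z = Sum.inl 0 ∨ z = Sum.inl 1 := by
  rintro (z | z) h
  · have : z = 0 ∨ z = 1 := by omega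
    rcases this with rfl | rfl
    · exact Or.inl rfl
    · exact Or.inr rfl
  · simp at h

theorem nb3 : ∀ z : Fin 3, z = 0 ∨ K3.Adj 0 z → z = 0 ∨ z = 1 ∨ z = 2 := by
  intro z _; omega

theorem nb3s {W : Type} (H : SimpleGraph W) : ∀ z : Fin 3 ⊕ W,
    z = Sum.inl 0 ∨ (K3 ⊕g H).Adj (Sum.inl 0) z →
      z = Sum.inl 0 ∨ z = Sum.inl 1 ∨ z = Sum.inl 2 := by
  rintro (z | z) h
  · have : z = 0 ∨ z = 1 ∨ z = 2 := by omega
    rcases this with rfl | rfl | rfl
    · exact Or.inl rfl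
    · exact Or.inr (Or.inl rfl)
    · exact Or.inr (Or.inr rfl)
  · simp at h

theorem gA_K2 : gammaA K2 = 1 :=
  gammaA_eq K2 1 le_rfl (AGame_one _) (parity_A K2 0 1 (by decide) nb2 (by decide))

theorem gB_K2 : gammaB K2 = 2 :=
  gammaB_eq K2 2 (by norm_num) (winB K2 _ _ hN2 sol2B) (bigB K2 0 1 nb2)

theorem gA_K3 : gammaA K3 = 2 :=
  gammaA_eq K3 2 (by norm_num) (winA K3 _ _ hN3 sol3A)
    (three_A K3 0 0 1 2 (by decide) (by decide) (by decide) nb3 (by decide))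

theorem gB_K3 : gammaB K3 = 2 :=
  gammaB_eq K3 2 (by norm_num) (winB K3 _ _ hN3 sol3B)
    (three_B K3 0 0 1 2 (by decide) (by decide) (by decide) nb3 (by decide))

theorem gA_K33 : gammaA (K3 ⊕g K3) = 2 :=
  gammaA_eq _ 2 (by norm_num) (winA _ _ _ hN33 sol33A)
    (three_A _ (Sum.inl 0) (Sum.inl 0) (Sum.inl 1) (Sum.inl 2) (by decide) (by decide) (by decide)
      (nb3s K3) (by decide))

theorem gB_K33 : gammaB (K3 ⊕g K3) = 2 :=
  gammaB_eq _ 2 (by norm_num) (winB _ _ _ hN33 sol33B)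
    (three_B _ (Sum.inl 0) (Sum.inl 0) (Sum.inl 1) (Sum.inl 2) (by decide) (by decide) (by decide)
      (nb3s K3) (by decide))

theorem gA_K23 : gammaA (K2 ⊕g K3) = 2 :=
  gammaA_eq _ 2 (by norm_num) (winA _ _ _ hN23 sol23A) (bigA _ _ _ (nb2s K3))

theorem gB_K23 : gammaB (K2 ⊕g K3) = 1 :=
  gammaB_eq _ 1 le_rfl (BGame_one _)
    (parity_B _ (Sum.inl 0) (Sum.inl 1) (Sum.inr 0) (by decide) (by decide) (by decide)
      (nb2s K3) (by decide))

theorem gA_K233 : gammaA (K2 ⊕g (K3 ⊕g K3)) = 1 :=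
  gammaA_eq _ 1 le_rfl (AGame_one _)
    (parity_A _ (Sum.inl 0) (Sum.inl 1) (by decide) (nb2s _) (by decide))

theorem gB_K233 : gammaB (K2 ⊕g (K3 ⊕g K3)) = 2 :=
  gammaB_eq _ 2 (by norm_num) (winB _ _ _ hN233 sol233B) (bigB _ _ _ (nb2s _))

theorem no_function_A : ¬ ∃ f : ℕ → ℕ → ℕ → ℕ → ℕ,
    ∀ (V W : Type) [Fintype V] [Fintype W] [Nonempty V] [Nonempty W] (G : SimpleGraph V)
      (H : SimpleGraph W), gammaA (G ⊕g H) = f (gammaA G) (gammaB G) (gammaA H) (gammaB H) := by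
  rintro ⟨f, hf⟩
  have h1 := hf (Fin 2) (Fin 3) K2 K3
  have h2 := hf (Fin 2) (Fin 3 ⊕ Fin 3) K2 (K3 ⊕g K3)
  rw [gA_K23, gA_K2, gB_K2, gA_K3, gB_K3] at h1
  rw [gA_K233, gA_K2, gB_K2, gA_K33, gB_K33] at h2
  omega

theorem no_function_B : ¬ ∃ f : ℕ → ℕ → ℕ → ℕ → ℕ,
    ∀ (V W : Type) [Fintype V] [Fintype W] [Nonempty V] [Nonempty W] (G : SimpleGraph V)
      (H : SimpleGraph W), gammaB (G ⊕g H) = f (gammaA G) (gammaB G) (gammaA H) (gammaB H) := by
  rintro ⟨f, hf⟩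
  have h1 := hf (Fin 2) (Fin 3) K2 K3
  have h2 := hf (Fin 2) (Fin 3 ⊕ Fin 3) K2 (K3 ⊕g K3)
  rw [gB_K23, gA_K2, gB_K2, gA_K3, gB_K3] at h1
  rw [gB_K233, gA_K2, gB_K2, gA_K33, gB_K33] at h2
  omega

end Pool.Agent.X69.Domatic
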