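import Mathlib

/-! The generalized van der Waerden game: Maker wins within a number of moves depending only on
the size of the pattern. -/

namespace Pool.Agent.X69.VdwGame

/-- `M` contains a copy `a S + b` of the pattern `S`, for an integer `a ≥ 1` and an integer `b`. -/
def HasCopy (S M : Finset ℕ) : Prop :=
  ∃ a : ℤ, 1 ≤ a ∧ ∃ b : ℤ, ∀ s ∈ S, ∃ m ∈ M, (m : ℤ) = a * (s : ℤ) + b

/-- `MakerWinsIn S N M B`: in the game `G(S)`, from the position in which Maker has claimed the
numbers in `M`, Breaker those in `B`, and Maker is to move, Maker has a strategy that wins against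
every play of Breaker using at most `N` further selections of Maker. -/
def MakerWinsIn (S : Finset ℕ) : ℕ → Finset ℕ → Finset ℕ → Prop
  | 0, M, _ => HasCopy S M
  | N + 1, M, B => HasCopy S M ∨ ∃ x : ℕ, x ∉ M ∧ x ∉ B ∧
      ∀ y : ℕ, y ∉ insert x M → y ∉ B → MakerWinsIn S N (insert x M) (insert y B)

/-- finite board game -/
def W (P : Finset ℕ → Prop) : ℕ → Bool → Finset ℕ → Finset ℕ → Prop
  | 0, _, _, M => P M
  | k + 1, true, U, M => ∃ x ∈ U, W P k false (U.erase x) (insert x M)
  | k + 1, false, U, M => ∀ y ∈ U, W P k true (U.erase y) M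

theorem claimA (P : Finset ℕ → Prop) (V : Finset ℕ) (hP : ∀ M, M ⊆ V → P M ∨ P (V \ M)) :
    ∀ (n : ℕ) (b : Bool) (U M : Finset ℕ), U.card = n → U ⊆ V → M ⊆ V → Disjoint U M →
      ¬ W P n b U M → W P n (!b) U (V \ (U ∪ M)) := by
  intro n
  induction n with
  | zero =>
    intro b U M hU _ hMV _ h
    have hU' : U = ∅ := Finset.card_eq_zero.mp hU
    subst hU'
    rcases hP M hMV with h1 | h1
    · exact absurd h1 h
    · show P _
      simpa using h1
  | succ n ih =>
    intro b U M hU hUV hMV hd h
    cases b with
    | true =>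
      intro x hx
      have h1 : ¬ W P n false (U.erase x) (insert x M) := fun h' => h ⟨x, hx, h'⟩
      have h2 := ih false (U.erase x) (insert x M) (by rw [Finset.card_erase_of_mem hx, hU]; rfl)
        ((Finset.erase_subset _ _).trans hUV)
        (Finset.insert_subset (hUV hx) hMV)
        (by
          rw [Finset.disjoint_insert_right]
          exact ⟨by simp, Finset.disjoint_of_subset_left (Finset.erase_subset _ _) hd⟩) h1
      have h3 : U.erase x ∪ insert x M = U ∪ M := by
        ext z
        simp only [Finset.mem_union, Finset.mem_erase, Finset.mem_insert]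
        by_cases hz : z = x
        · subst hz; simp [hx]
        · simp [hz]
      rw [h3] at h2
      exact h2
    | false =>
      have h0 : ∃ y ∈ U, ¬ W P n true (U.erase y) M := by
        by_contra hcon
        push Not at hcon
        exact h hcon
      obtain ⟨y, hy, h1⟩ := h0
      refine ⟨y, hy, ?_⟩
      have h2 := ih true (U.erase y) M (by rw [Finset.card_erase_of_mem hy, hU]; rfl)
        ((Finset.erase_subset _ _).trans hUV) hMV
        (Finset.disjoint_of_subset_left (Finset.erase_subset _ _) hd) h1
      have hyM : y ∉ M := Finset.disjoint_left.mp hd hy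
      have h3 : V \ (U.erase y ∪ M) = insert y (V \ (U ∪ M)) := by
        ext z
        simp only [Finset.mem_union, Finset.mem_erase, Finset.mem_insert, Finset.mem_sdiff]
        by_cases hz : z = y
        · subst hz; simp [hyM, hUV hy]
        · simp [hz]
      rw [h3] at h2
      exact h2

theorem claimC (P : Finset ℕ → Prop) (hmono : ∀ M M', M ⊆ M' → P M → P M') :
    ∀ (n : ℕ) (b : Bool) (U M : Finset ℕ) (x : ℕ), U.card = n + 1 → x ∈ U →
      W P (n + 1) b U M → W P n b (U.erase x) (insert x M) := by
  intro n
  induction n with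
  | zero =>
    intro b U M x hU hx h
    obtain ⟨u, hu⟩ := Finset.card_eq_one.mp hU
    subst hu
    have hxu : x = u := by simpa using hx
    subst hxu
    cases b with
    | true =>
      obtain ⟨x', hx', h'⟩ := h
      have : x' = x := by simpa using hx'
      subst this
      exact h'
    | false =>
      have h' := h x hx
      exact hmono M _ (Finset.subset_insert _ _) h'
  | succ n ih =>
    intro b U M x hU hx h
    cases b with
    | true =>
      obtain ⟨x', hx', h'⟩ := h
      have hc : (U.erase x').card = n + 1 := by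
        rw [Finset.card_erase_of_mem hx', hU]; rfl
      by_cases hxx : x' = x
      · subst hxx
        -- second player win implies first player win
        obtain ⟨z, hz⟩ : (U.erase x').Nonempty := by rw [← Finset.card_pos, hc]; omega
        exact ⟨z, hz, ih false _ _ z hc hz h'⟩
      · refine ⟨x', Finset.mem_erase.mpr ⟨hxx, hx'⟩, ?_⟩
        have h2 := ih false _ _ x hc (Finset.mem_erase.mpr ⟨fun e => hxx e.symm, hx⟩) h'
        rw [Finset.erase_right_comm, Finset.insert_comm] at h2
        exact h2
    | false =>
      intro y hy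
      have hyU : y ∈ U := Finset.mem_of_mem_erase hy
      have hyx : y ≠ x := Finset.ne_of_mem_erase hy
      have hc : (U.erase y).card = n + 1 := by
        rw [Finset.card_erase_of_mem hyU, hU]; rfl
      have h2 := ih true _ _ x hc (Finset.mem_erase.mpr ⟨fun e => hyx e.symm, hx⟩) (h y hyU)
      rw [Finset.erase_right_comm] at h2
      exact h2

theorem claimB (P : Finset ℕ → Prop) (hmono : ∀ M M', M ⊆ M' → P M → P M') (n : ℕ)
    (U M : Finset ℕ) (hU : U.card = n) (h : W P n false U M) : W P n true U M := by
  cases n with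
  | zero => exact h
  | succ n =>
    obtain ⟨z, hz⟩ : U.Nonempty := by rw [← Finset.card_pos, hU]; omega
    exact ⟨z, hz, claimC P hmono n false U M z hU hz h⟩

theorem first_wins (P : Finset ℕ → Prop) (hmono : ∀ M M', M ⊆ M' → P M → P M')
    (V : Finset ℕ) (hP : ∀ M, M ⊆ V → P M ∨ P (V \ M)) : W P V.card true V ∅ := by
  by_contra h
  have h1 := claimA P V hP V.card true V ∅ rfl (Finset.Subset.refl _) (by simp) (by simp) h
  have h2 : V \ (V ∪ ∅) = ∅ := by simp
  rw [h2] at h1
  exact h (claimB P hmono V.card V ∅ rfl h1)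

theorem hasCopy_mono (S : Finset ℕ) (M M' : Finset ℕ) (h : M ⊆ M') (hc : HasCopy S M) :
    HasCopy S M' := by
  obtain ⟨a, ha, b, hb⟩ := hc
  exact ⟨a, ha, b, fun s hs => by
    obtain ⟨m, hm, e⟩ := hb s hs
    exact ⟨m, h hm, e⟩⟩

theorem makerWinsIn_succ (S : Finset ℕ) : ∀ (N : ℕ) (M B : Finset ℕ),
    MakerWinsIn S N M B → MakerWinsIn S (N + 1) M B := by
  intro N
  induction N with
  | zero => intro M B h; exact Or.inl h
  | succ N ih =>
    intro M B h
    rcases h with h | ⟨x, hx1, hx2, h⟩
    · exact Or.inl h
    · exact Or.inr ⟨x, hx1, hx2, fun y hy1 hy2 => ih _ _ (h y hy1 hy2)⟩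

theorem makerWinsIn_mono (S : Finset ℕ) {N N' : ℕ} (hN : N ≤ N') (M B : Finset ℕ)
    (h : MakerWinsIn S N M B) : MakerWinsIn S N' M B := by
  induction hN with
  | refl => exact h
  | step _ ih => exact makerWinsIn_succ S _ _ _ ih

theorem transfer (S : Finset ℕ) : ∀ (n : ℕ) (U M B : Finset ℕ), U.card = n → Disjoint U M →
    Disjoint U B → W (HasCopy S) n true U M → MakerWinsIn S n M B := by
  intro n
  induction n using Nat.strong_induction_on with
  | _ n ih =>
    intro U M B hU hUM hUB h
    cases n with
    | zero => exact h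
    | succ n =>
      obtain ⟨x, hx, h'⟩ := h
      have hxM : x ∉ M := Finset.disjoint_left.mp hUM hx
      have hxB : x ∉ B := Finset.disjoint_left.mp hUB hx
      refine Or.inr ⟨x, hxM, hxB, fun y hy1 hy2 => ?_⟩
      have hc : (U.erase x).card = n := by rw [Finset.card_erase_of_mem hx, hU]; rfl
      have hd1 : Disjoint (U.erase x) (insert x M) := by
        rw [Finset.disjoint_insert_right]
        exact ⟨by simp, Finset.disjoint_of_subset_left (Finset.erase_subset _ _) hUM⟩
      have hd2 : Disjoint (U.erase x) B :=
        Finset.disjoint_of_subset_left (Finset.erase_subset _ _) hUB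
      by_cases hyU : y ∈ U.erase x
      · cases n with
        | zero =>
          rw [Finset.card_eq_zero.mp hc] at hyU
          simp at hyU
        | succ n =>
          have h2 := h' y hyU
          have h3 := ih n (by omega) ((U.erase x).erase y) (insert x M) (insert y B)
            (by rw [Finset.card_erase_of_mem hyU, hc]; rfl)
            (Finset.disjoint_of_subset_left (Finset.erase_subset _ _) hd1)
            (by
              rw [Finset.disjoint_insert_right]
              exact ⟨by simp, Finset.disjoint_of_subset_left (Finset.erase_subset _ _) hd2⟩) h2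
          exact makerWinsIn_succ S _ _ _ h3
      · have h2 := claimB (HasCopy S) (hasCopy_mono S) n (U.erase x) (insert x M) hc h'
        exact ih n (by omega) (U.erase x) (insert x M) (insert y B) hc hd1
          (by
            rw [Finset.disjoint_insert_right]
            exact ⟨hyU, hd2⟩) h2

/-- Hales-Jewett gives a small board on which no draw is possible. -/
theorem exists_board (n : ℕ) : ∃ C : ℕ, ∀ S : Finset ℕ, S.card = n →
    ∃ V : Finset ℕ, V.card ≤ C ∧ ∀ M, M ⊆ V → HasCopy S M ∨ HasCopy S (V \ M) := by
  classical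
  obtain ⟨ι, hι, hHJ⟩ := Combinatorics.Line.exists_mono_in_high_dimension (Fin n) Bool
  refine ⟨Fintype.card (ι → Fin n), fun S hS => ?_⟩
  let e : Fin n ≃ S := (S.equivFinOfCardEq hS).symm
  let φ : (ι → Fin n) → ℕ := fun v => ∑ i, (e (v i) : ℕ)
  refine ⟨Finset.univ.image φ, Finset.card_image_le, fun M _ => ?_⟩
  obtain ⟨l, c, hl⟩ := hHJ (fun v => decide (φ v ∈ M))
  -- the line is mapped to a copy of S
  have key : ∃ a : ℤ, 1 ≤ a ∧ ∃ b : ℤ, ∀ s : Fin n,
      ((φ (l s) : ℕ) : ℤ) = a * ((e s : ℕ) : ℤ) + b := by
    refine ⟨((Finset.univ.filter (fun i => l.idxFun i = none)).card : ℤ), ?_,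
      ∑ i ∈ Finset.univ.filter (fun i => ¬ l.idxFun i = none),
        (match l.idxFun i with
          | none => (0 : ℤ)
          | some x => ((e x : ℕ) : ℤ)), ?_⟩
    · have : 0 < (Finset.univ.filter (fun i => l.idxFun i = none)).card := by
        obtain ⟨i, hi⟩ := l.proper
        exact Finset.card_pos.mpr ⟨i, by simp [hi]⟩
      exact_mod_cast this
    · intro s
      simp only [φ]
      push_cast
      rw [← Finset.sum_filter_add_sum_filter_not Finset.univ (fun i => l.idxFun i = none)]
      congr 1
      · rw [← nsmul_eq_mul, ← Finset.sum_const]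
        apply Finset.sum_congr rfl
        intro i hi
        have hi' : l.idxFun i = none := by simpa using hi
        have : l s i = s := Combinatorics.Line.apply_none l s i hi'
        rw [this]
      · apply Finset.sum_congr rfl
        intro i hi
        have hi' : ¬ l.idxFun i = none := by simpa using hi
        obtain ⟨x, hx⟩ := Option.ne_none_iff_exists'.mp hi'
        have : l s i = x := Combinatorics.Line.apply_some hx
        rw [this, hx]
  obtain ⟨a, ha, b, hab⟩ := key
  cases c with
  | true =>
    left
    refine ⟨a, ha, b, fun s hs => ⟨φ (l (e.symm ⟨s, hs⟩)), ?_, ?_⟩⟩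
    · have := hl (e.symm ⟨s, hs⟩)
      simpa using this
    · rw [hab]; simp
  | false =>
    right
    refine ⟨a, ha, b, fun s hs => ⟨φ (l (e.symm ⟨s, hs⟩)), ?_, ?_⟩⟩
    · have := hl (e.symm ⟨s, hs⟩)
      rw [Finset.mem_sdiff]
      exact ⟨Finset.mem_image_of_mem _ (Finset.mem_univ _), by simpa using this⟩
    · rw [hab]; simp

theorem main : ∃ C : ℕ → ℕ, ∀ n : ℕ, ∀ S : Finset ℕ, S.card = n → MakerWinsIn S (C n) ∅ ∅ := by
  choose C hC using exists_board
  refine ⟨C, fun n S hS => ?_⟩
  obtain ⟨V, hV, hP⟩ := hC n S hS
  have h1 := first_wins (HasCopy S) (hasCopy_mono S) V hP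
  have h2 := transfer S V.card V ∅ ∅ rfl (by simp) (by simp) h1
  exact makerWinsIn_mono S hV _ _ h2

end Pool.Agent.X69.VdwGame
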