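import Mathlib

/-! Avoider-Enforcer games on linear hypergraphs of rank 3: high minimum degree gives an
Enforcer win. -/

namespace Pool.Agent.X69.AvoidEnforce

/-- `EnforcerWins E n b X Y`: in the Avoider-Enforcer game with edge set `E`, Enforcer has a winning
strategy from the position in which Avoider has picked the vertices of `X`, Enforcer those of `Y`,
`n` more picks are to be made, and the player to move is Enforcer if `b = true` and Avoider if
`b = false`. A pick takes a previously unpicked vertex; when no pick is left, Enforcer has won iff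
Avoider's set contains an edge. -/
def EnforcerWins {V : Type} [DecidableEq V] (E : Finset (Finset V)) :
    ℕ → Bool → Finset V → Finset V → Prop
  | 0, _, X, _ => ∃ A ∈ E, A ⊆ X
  | n + 1, true, X, Y => ∃ v : V, v ∉ X ∧ v ∉ Y ∧ EnforcerWins E n false X (insert v Y)
  | n + 1, false, X, Y => ∀ v : V, v ∉ X → v ∉ Y → EnforcerWins E n true (insert v X) Y

/-- Enforcer wins as last player on the hypergraph with vertex set `V` and edge set `E`: all
vertices get picked, and Enforcer starts iff the number of vertices is odd (so that he makes the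
last pick). -/
def EnforcerWinsLast {V : Type} [Fintype V] [DecidableEq V] (E : Finset (Finset V)) : Prop :=
  EnforcerWins E (Fintype.card V) (decide (Odd (Fintype.card V))) ∅ ∅

/-- potential -/
def Psi {V : Type} [DecidableEq V] (E : Finset (Finset V)) (X Y : Finset V) : ℕ :=
  ∑ A ∈ E.filter (fun A => Disjoint A Y), 2 ^ (3 - (A \ X).card)

/-- weight of a vertex -/
def wt {V : Type} [DecidableEq V] (E : Finset (Finset V)) (X Y : Finset V) (u : V) : ℕ :=
  ∑ A ∈ (E.filter (fun A => Disjoint A Y)).filter (fun A => u ∈ A), 2 ^ (3 - (A \ X).card)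

variable {V : Type} [DecidableEq V]

theorem psi_enforcer (E : Finset (Finset V)) (X Y : Finset V) (e : V) :
    Psi E X (insert e Y) + wt E X Y e = Psi E X Y := by
  unfold Psi wt
  rw [← Finset.sum_filter_add_sum_filter_not (E.filter (fun A => Disjoint A Y))
    (fun A => e ∈ A), add_comm]
  congr 1
  apply Finset.sum_congr _ (fun _ _ => rfl)
  ext A
  simp only [Finset.mem_filter, Finset.disjoint_insert_right]
  tauto

theorem psi_avoider (E : Finset (Finset V)) (hE : ∀ A ∈ E, A.card ≤ 3) (X Y : Finset V) (a : V)
    (haX : a ∉ X) :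
    Psi E (insert a X) Y = Psi E X Y + wt E X Y a := by
  unfold Psi wt
  rw [← Finset.sum_filter_add_sum_filter_not (E.filter (fun A => Disjoint A Y))
    (fun A => a ∈ A), ← Finset.sum_filter_add_sum_filter_not (E.filter (fun A => Disjoint A Y))
    (fun A => a ∈ A) (f := fun A => 2 ^ (3 - (A \ X).card))]
  have h1 : ∀ A ∈ (E.filter (fun A => Disjoint A Y)).filter (fun A => a ∈ A),
      2 ^ (3 - (A \ insert a X).card) = 2 * 2 ^ (3 - (A \ X).card) := by
    intro A hA
    simp only [Finset.mem_filter] at hA
    have h2 : A \ insert a X = (A \ X).erase a := by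
      ext z
      simp only [Finset.mem_sdiff, Finset.mem_insert, Finset.mem_erase]
      tauto
    have h3 : a ∈ A \ X := by simp [hA.2, haX]
    have h4 : 0 < (A \ X).card := Finset.card_pos.mpr ⟨a, h3⟩
    have h5 : (A \ X).card ≤ 3 := (Finset.card_le_card Finset.sdiff_subset).trans (hE A hA.1.1)
    rw [h2, Finset.card_erase_of_mem h3, ← pow_succ']
    congr 1
    omega
  have h6 : ∀ A ∈ (E.filter (fun A => Disjoint A Y)).filter (fun A => ¬ a ∈ A),
      2 ^ (3 - (A \ insert a X).card) = 2 ^ (3 - (A \ X).card) := by
    intro A hA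
    simp only [Finset.mem_filter] at hA
    have h2 : A \ insert a X = A \ X := by
      ext z
      simp only [Finset.mem_sdiff, Finset.mem_insert]
      constructor
      · intro h; exact ⟨h.1, fun hz => h.2 (Or.inr hz)⟩
      · rintro ⟨h, h'⟩
        refine ⟨h, ?_⟩
        rintro (rfl | hz)
        · exact hA.2 h
        · exact h' hz
    rw [h2]
  rw [Finset.sum_congr rfl h1, Finset.sum_congr rfl h6, ← Finset.mul_sum]
  ring

theorem wt_drop (E : Finset (Finset V))
    (hlin : ∀ A ∈ E, ∀ B ∈ E, A ≠ B → (A ∩ B).card ≤ 1) (X Y : Finset V) (e a : V)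
    (hea : a ≠ e) (haX : a ∉ X) (heX : e ∉ X) :
    wt E X Y a ≤ wt E X (insert e Y) a + 2 := by
  unfold wt
  rw [← Finset.sum_filter_add_sum_filter_not
    ((E.filter (fun A => Disjoint A Y)).filter (fun A => a ∈ A)) (fun A => e ∈ A), add_comm]
  refine Nat.add_le_add (le_of_eq ?_) ?_
  · apply Finset.sum_congr _ (fun _ _ => rfl)
    ext A
    simp only [Finset.mem_filter, Finset.disjoint_insert_right]
    tauto
  · set S := ((E.filter (fun A => Disjoint A Y)).filter (fun A => a ∈ A)).filter (fun A => e ∈ A)
      with hS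
    have hcard : S.card ≤ 1 := by
      rw [Finset.card_le_one]
      intro A hA B hB
      simp only [hS, Finset.mem_filter] at hA hB
      by_contra hne
      have h1 := hlin A hA.1.1.1 B hB.1.1.1 hne
      have h2 : ({a, e} : Finset V) ⊆ A ∩ B := by
        intro z hz
        simp only [Finset.mem_insert, Finset.mem_singleton] at hz
        rcases hz with rfl | rfl
        · simp [hA.1.2, hB.1.2]
        · simp [hA.2, hB.2]
      have h3 := Finset.card_le_card h2
      rw [Finset.card_pair hea] at h3
      omega
    have hle : ∀ A ∈ S, 2 ^ (3 - (A \ X).card) ≤ 2 := by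
      intro A hA
      simp only [hS, Finset.mem_filter] at hA
      have h2 : ({a, e} : Finset V) ⊆ A \ X := by
        intro z hz
        simp only [Finset.mem_insert, Finset.mem_singleton] at hz
        rcases hz with rfl | rfl
        · simp [hA.1.2, haX]
        · simp [hA.2, heX]
      have h3 := Finset.card_le_card h2
      rw [Finset.card_pair hea] at h3
      calc 2 ^ (3 - (A \ X).card) ≤ 2 ^ 1 := Nat.pow_le_pow_right (by norm_num) (by omega)
        _ = 2 := by norm_num
    calc ∑ A ∈ S, 2 ^ (3 - (A \ X).card) ≤ ∑ A ∈ S, 2 := Finset.sum_le_sum hle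
      _ = S.card * 2 := by simp
      _ ≤ 2 := by omega

/-- the number of edges through `u` all of whose other vertices lie in `X` is at most `|X| + 1` -/
theorem count_through (E : Finset (Finset V))
    (hlin : ∀ A ∈ E, ∀ B ∈ E, A ≠ B → (A ∩ B).card ≤ 1) (X : Finset V) (u : V)
    (S : Finset (Finset V)) (hSE : S ⊆ E) (hSu : ∀ A ∈ S, u ∈ A) (hSX : ∀ A ∈ S, A.erase u ⊆ X) :
    S.card ≤ X.card + 1 := by
  classical
  let f : Finset V → Option V := fun A => if h : (A.erase u).Nonempty then some h.choose else none
  have h1 : ∀ A ∈ S, f A ∈ insert none (X.image some) := by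
    intro A hA
    by_cases h : (A.erase u).Nonempty
    · have : f A = some h.choose := by simp only [f, dif_pos h]
      rw [this]
      simp only [Finset.mem_insert, Finset.mem_image]
      right
      exact ⟨_, hSX A hA h.choose_spec, rfl⟩
    · have : f A = none := by simp only [f, dif_neg h]
      rw [this]
      simp
  have h2 : Set.InjOn f S := by
    intro A hA B hB hAB
    by_contra hne
    have h3 := hlin A (hSE hA) B (hSE hB) hne
    by_cases h : (A.erase u).Nonempty
    · by_cases h' : (B.erase u).Nonempty
      · simp only [f, dif_pos h, dif_pos h'] at hAB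
        have h4 := Option.some.inj hAB
        have h5 := h.choose_spec
        have h6 := h'.choose_spec
        rw [← h4] at h6
        have h7 : ({u, h.choose} : Finset V) ⊆ A ∩ B := by
          intro z hz
          simp only [Finset.mem_insert, Finset.mem_singleton] at hz
          rcases hz with rfl | rfl
          · simp [hSu A hA, hSu B hB]
          · exact Finset.mem_inter.mpr ⟨Finset.mem_of_mem_erase h5, Finset.mem_of_mem_erase h6⟩
        have h8 := Finset.card_le_card h7
        rw [Finset.card_pair (Finset.ne_of_mem_erase h5).symm] at h8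
        omega
      · simp only [f, dif_pos h, dif_neg h'] at hAB
        exact absurd hAB (by simp)
    · by_cases h' : (B.erase u).Nonempty
      · simp only [f, dif_neg h, dif_pos h'] at hAB
        exact absurd hAB (by simp)
      · rw [Finset.not_nonempty_iff_eq_empty] at h h'
        apply hne
        rw [← Finset.insert_erase (hSu A hA), ← Finset.insert_erase (hSu B hB), h, h']
  calc S.card ≤ (insert none (X.image some) : Finset (Option V)).card :=
        Finset.card_le_card_of_injOn f h1 h2
    _ ≤ (X.image some).card + 1 := Finset.card_insert_le _ _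
    _ ≤ X.card + 1 := Nat.add_le_add_right Finset.card_image_le 1

theorem last_wt (E : Finset (Finset V))
    (hlin : ∀ A ∈ E, ∀ B ∈ E, A ≠ B → (A ∩ B).card ≤ 1) (X Y : Finset V) (u : V)
    (huX : u ∉ X) (hall : ∀ z : V, z = u ∨ z ∈ X ∨ z ∈ Y) :
    wt E X Y u ≤ 4 * (X.card + 1) := by
  unfold wt
  set S := (E.filter (fun A => Disjoint A Y)).filter (fun A => u ∈ A) with hS
  have h1 : S.card ≤ X.card + 1 := by
    apply count_through E hlin X u S
    · intro A hA
      simp only [hS, Finset.mem_filter] at hA
      exact hA.1.1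
    · intro A hA
      simp only [hS, Finset.mem_filter] at hA
      exact hA.2
    · intro A hA z hz
      simp only [hS, Finset.mem_filter] at hA
      rcases hall z with h | h | h
      · exact absurd h (Finset.ne_of_mem_erase hz)
      · exact h
      · exact absurd h (Finset.disjoint_left.mp hA.1.2 (Finset.mem_of_mem_erase hz))
  have hle : ∀ A ∈ S, 2 ^ (3 - (A \ X).card) ≤ 4 := by
    intro A hA
    simp only [hS, Finset.mem_filter] at hA
    have h3 : 0 < (A \ X).card := Finset.card_pos.mpr ⟨u, by simp [hA.2, huX]⟩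
    calc 2 ^ (3 - (A \ X).card) ≤ 2 ^ 2 := Nat.pow_le_pow_right (by norm_num) (by omega)
      _ = 4 := by norm_num
  calc ∑ A ∈ S, 2 ^ (3 - (A \ X).card) ≤ ∑ A ∈ S, 4 := Finset.sum_le_sum hle
    _ = S.card * 4 := by simp
    _ ≤ 4 * (X.card + 1) := by omega

theorem main_ind [Fintype V] (E : Finset (Finset V)) (hE : ∀ A ∈ E, A.card ≤ 3)
    (hlin : ∀ A ∈ E, ∀ B ∈ E, A ≠ B → (A ∩ B).card ≤ 1) :
    ∀ (m : ℕ) (X Y : Finset V), (X ∪ Y)ᶜ.card = 2 * m + 1 →
      2 * m + 4 * (X.card + m + 1) < Psi E X Y → EnforcerWins E (2 * m + 1) true X Y := by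
  intro m
  induction m with
  | zero =>
    intro X Y hcard hPsi
    obtain ⟨u, hu⟩ := Finset.card_eq_one.mp (hcard.trans (by norm_num))
    have huu : u ∈ (X ∪ Y)ᶜ := by rw [hu]; simp
    simp only [Finset.mem_compl, Finset.mem_union, not_or] at huu
    refine ⟨u, huu.1, huu.2, ?_⟩
    have hall : ∀ z : V, z = u ∨ z ∈ X ∨ z ∈ Y := by
      intro z
      by_cases hz : z ∈ (X ∪ Y)ᶜ
      · left; rw [hu] at hz; simpa using hz
      · right
        rw [Finset.mem_compl, not_not, Finset.mem_union] at hz
        exact hz
    have h1 := last_wt E hlin X Y u huu.1 hall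
    have h2 := psi_enforcer E X Y u
    have h3 : 0 < Psi E X (insert u Y) := by omega
    unfold Psi at h3
    have h4 : (E.filter (fun A => Disjoint A (insert u Y))).Nonempty := by
      by_contra h
      rw [Finset.not_nonempty_iff_eq_empty] at h
      rw [h] at h3
      simp at h3
    obtain ⟨A, hA⟩ := h4
    simp only [Finset.mem_filter, Finset.disjoint_insert_right] at hA
    refine ⟨A, hA.1, fun z hz => ?_⟩
    rcases hall z with h | h | h
    · exact absurd (h ▸ hz) hA.2.1
    · exact h
    · exact absurd h (Finset.disjoint_left.mp hA.2.2 hz)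
  | succ m ih =>
    intro X Y hcard hPsi
    have hne : ((X ∪ Y)ᶜ).Nonempty := by
      rw [← Finset.card_pos, hcard]; omega
    obtain ⟨e, he, hmin⟩ := Finset.exists_min_image ((X ∪ Y)ᶜ) (wt E X Y) hne
    have hee := he
    simp only [Finset.mem_compl, Finset.mem_union, not_or] at hee
    refine ⟨e, hee.1, hee.2, ?_⟩
    intro a haX haY
    simp only [Finset.mem_insert, not_or] at haY
    have hamem : a ∈ (X ∪ Y)ᶜ := by simp [haX, haY.2]
    apply ih
    · have : (insert a X ∪ insert e Y)ᶜ = (((X ∪ Y)ᶜ).erase e).erase a := by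
        ext z
        simp only [Finset.mem_compl, Finset.mem_union, Finset.mem_insert, Finset.mem_erase]
        tauto
      rw [this, Finset.card_erase_of_mem, Finset.card_erase_of_mem he, hcard]
      · omega
      · rw [Finset.mem_erase]; exact ⟨haY.1, hamem⟩
    · have h1 := psi_enforcer E X Y e
      have h2 := psi_avoider E hE X (insert e Y) a haX
      have h3 := wt_drop E hlin X Y e a haY.1 haX hee.1
      have h4 := hmin a hamem
      rw [h2, Finset.card_insert_of_notMem haX]
      omega

theorem card_edges [Fintype V] (E : Finset (Finset V)) (hE : ∀ A ∈ E, A.card ≤ 3)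
    (hdeg : ∀ v : V, 10 ≤ (E.filter (fun A => v ∈ A)).card) :
    10 * Fintype.card V ≤ 3 * E.card := by
  have h1 : ∑ v : V, (E.filter (fun A => v ∈ A)).card = ∑ A ∈ E, A.card := by
    simp_rw [Finset.card_filter]
    rw [Finset.sum_comm]
    apply Finset.sum_congr rfl
    intro A _
    rw [← Finset.card_filter]
    simp
  have h2 : ∑ _v : V, 10 ≤ ∑ v : V, (E.filter (fun A => v ∈ A)).card :=
    Finset.sum_le_sum (fun v _ => hdeg v)
  have h3 : ∑ A ∈ E, A.card ≤ ∑ A ∈ E, 3 := Finset.sum_le_sum hE
  simp only [Finset.sum_const, smul_eq_mul, Finset.card_univ] at h2 h3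
  omega

theorem psi_start (E : Finset (Finset V)) : E.card ≤ Psi E ∅ ∅ := by
  unfold Psi
  have h1 : E.filter (fun A => Disjoint A ∅) = E := by simp
  rw [h1, Finset.card_eq_sum_ones]
  exact Finset.sum_le_sum (fun A _ => Nat.one_le_two_pow)

theorem main [Fintype V] [Nonempty V] (E : Finset (Finset V)) (hE : ∀ A ∈ E, A.card ≤ 3)
    (hlin : ∀ A ∈ E, ∀ B ∈ E, A ≠ B → (A ∩ B).card ≤ 1)
    (hdeg : ∀ v : V, 10 ≤ (E.filter (fun A => v ∈ A)).card) : EnforcerWinsLast E := by
  have h1 := card_edges E hE hdeg
  have h2 := psi_start E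
  have h3 : 10 ≤ Fintype.card V := by
    obtain ⟨v⟩ := (inferInstance : Nonempty V)
    have h4 := count_through E hlin (Finset.univ.erase v) v (E.filter (fun A => v ∈ A))
      (Finset.filter_subset _ _) (fun A hA => (Finset.mem_filter.mp hA).2)
      (fun A _ => Finset.erase_subset_erase _ (Finset.subset_univ _))
    rw [Finset.card_erase_of_mem (Finset.mem_univ _), Finset.card_univ] at h4
    have h5 := hdeg v
    have h6 : 0 < Fintype.card V := Fintype.card_pos
    omega
  unfold EnforcerWinsLast
  rcases Nat.even_or_odd (Fintype.card V) with hev | hodd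
  · have hno : ¬ Odd (Fintype.card V) := Nat.not_odd_iff_even.mpr hev
    obtain ⟨m, hm⟩ : ∃ m, Fintype.card V = 2 * m + 1 + 1 := by
      obtain ⟨r, hr⟩ := hev
      exact ⟨r - 1, by omega⟩
    rw [decide_eq_false hno, hm]
    intro a _ _
    apply main_ind E hE hlin
    · rw [Finset.card_compl, hm]
      simp
    · have h7 := psi_avoider E hE ∅ ∅ a (by simp)
      rw [h7]
      simp only [insert_empty_eq, Finset.card_singleton]
      omega
  · rw [decide_eq_true hodd]
    obtain ⟨m, hm⟩ := hodd
    rw [hm]
    apply main_ind E hE hlin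
    · simp [hm]
    · simp only [Finset.card_empty]
      omega

end Pool.Agent.X69.AvoidEnforce
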