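import Mathlib

/-! The degree-preserving growth Builder-Chooser game. -/

namespace Pool.Agent.X69.DPG

/-- `M`, a graph on the same vertices as the current graph, is a matching: no vertex lies in two
edges of `M`. -/
def IsMatch {V : Type} (M : SimpleGraph V) : Prop :=
  ∀ v u u' : V, M.Adj v u → M.Adj v u' → u = u'

/-- The growth step: the edges of the matching `M` are deleted from `G`, and a new vertex `none` is
joined to every endpoint of an edge of `M`. -/
def grow {V : Type} (G M : SimpleGraph V) : SimpleGraph (Option V) where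
  Adj x y := match x, y with
    | some u, some v => G.Adj u v ∧ ¬ M.Adj u v
    | none, some v => ∃ u, M.Adj v u
    | some v, none => ∃ u, M.Adj v u
    | none, none => False
  symm := ⟨by
    intro x y h
    cases x <;> cases y <;> simp_all [SimpleGraph.adj_comm]⟩
  loopless := ⟨by
    intro x h
    cases x <;> simp_all⟩

/-- `Forces k t G`: from the current graph `G`, Builder has a strategy guaranteeing that after
exactly `t` further rounds the graph contains a complete graph on `k` vertices. In a round Builder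
picks a matching `M` of the current graph and splits the edges of the grown graph into `A` and `B`;
Chooser decides which of them is the next graph. -/
def Forces (k : ℕ) : (t : ℕ) → {V : Type} → SimpleGraph V → Prop
  | 0, _, G => ¬ G.CliqueFree k
  | t + 1, V, G => ∃ M : SimpleGraph V, M ≤ G ∧ IsMatch M ∧
      ∃ A B : SimpleGraph (Option V), A ⊔ B = grow G M ∧ Disjoint A B ∧
        Forces k t A ∧ Forces k t B

/-- The forcing time of the complete graph on `k` vertices from `G` (`⊤` if Builder cannot force). -/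
noncomputable def tau (k : ℕ) {V : Type} (G : SimpleGraph V) : ℕ∞ :=
  sInf {n : ℕ∞ | ∃ t : ℕ, n = (t : ℕ∞) ∧ Forces k t G}

/-- The least forcing time of the complete graph on `k` vertices from a finite graph of girth at
least `g` (forests have infinite girth). -/
noncomputable def rhoGirth (k g : ℕ) : ℕ∞ :=
  sInf {n : ℕ∞ | ∃ (V : Type) (_ : Finite V) (G : SimpleGraph V),
    (g : ℕ∞) ≤ G.egirth ∧ n = tau k G}

/-- The least forcing time of the complete graph on `k` vertices from a finite triangle-free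
graph. -/
noncomputable def rho (k : ℕ) : ℕ∞ :=
  sInf {n : ℕ∞ | ∃ (V : Type) (_ : Finite V) (G : SimpleGraph V), G.CliqueFree 3 ∧ n = tau k G}

theorem grow_ss {V : Type} (G M : SimpleGraph V) (u v : V) :
    (grow G M).Adj (some u) (some v) ↔ G.Adj u v ∧ ¬ M.Adj u v := Iff.rfl

theorem grow_ns {V : Type} (G M : SimpleGraph V) (v : V) :
    (grow G M).Adj none (some v) ↔ ∃ u, M.Adj v u := Iff.rfl

theorem grow_sn {V : Type} (G M : SimpleGraph V) (v : V) :
    (grow G M).Adj (some v) none ↔ ∃ u, M.Adj v u := Iff.rfl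

theorem grow_nn {V : Type} (G M : SimpleGraph V) :
    (grow G M).Adj none none ↔ False := Iff.rfl

/-- image graph under an injective map -/
def img {V V' : Type} (f : V → V') (hf : Function.Injective f) (G : SimpleGraph V) :
    SimpleGraph V' where
  Adj x y := ∃ u v, G.Adj u v ∧ f u = x ∧ f v = y
  symm := ⟨fun _ _ ⟨u, v, h, h1, h2⟩ => ⟨v, u, h.symm, h2, h1⟩⟩
  loopless := ⟨fun _ ⟨u, v, h, h1, h2⟩ => by
    have : u = v := hf (h1.trans h2.symm)
    exact G.ne_of_adj h this⟩

theorem mono (k : ℕ) : ∀ (t : ℕ) {V V' : Type} (G : SimpleGraph V) (G' : SimpleGraph V')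
    (f : V → V'), Function.Injective f → (∀ u v, G.Adj u v → G'.Adj (f u) (f v)) →
    Forces k t G → Forces k t G' := by
  intro t
  induction t with
  | zero =>
    intro V V' G G' f hf hh h hc
    exact h (SimpleGraph.CliqueFree.comap ⟨⟨⟨f, fun {a b} hab => hh a b hab⟩, hf⟩⟩ hc)
  | succ t ih =>
    intro V V' G G' f hf hh h
    obtain ⟨M, hMG, hM, A, B, hAB, hd, hA, hB⟩ := h
    have hof : Function.Injective (Option.map f) := Option.map_injective hf
    have hgrow : ∀ x y, (grow G M).Adj x y →
        (grow G' (img f hf M)).Adj (Option.map f x) (Option.map f y) := by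
      intro x y hxy
      cases x with
      | none =>
        cases y with
        | none => exact hxy
        | some v =>
          obtain ⟨u, hu⟩ := hxy
          exact ⟨f u, v, u, hu, rfl, rfl⟩
      | some u =>
        cases y with
        | none =>
          obtain ⟨v, hv⟩ := hxy
          exact ⟨f v, u, v, hv, rfl, rfl⟩
        | some v =>
          refine ⟨hh u v hxy.1, ?_⟩
          rintro ⟨u', v', h1, h2, h3⟩
          rw [hf h2, hf h3] at h1
          exact hxy.2 h1
    have hBle : img (Option.map f) hof B ≤ grow G' (img f hf M) := by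
      rintro x y ⟨u, v, h1, rfl, rfl⟩
      apply hgrow
      rw [← hAB]
      exact Or.inr h1
    refine ⟨img f hf M, ?_, ?_, grow G' (img f hf M) \ img (Option.map f) hof B,
      img (Option.map f) hof B, ?_, disjoint_sdiff_self_left, ?_, ?_⟩
    · rintro x y ⟨u, v, h1, rfl, rfl⟩
      exact hh u v (hMG h1)
    · rintro x y z ⟨u, v, h1, rfl, rfl⟩ ⟨u', v', h2, h3, rfl⟩
      rw [hf h3] at h2
      rw [hM u v v' h1 h2]
    · exact sdiff_sup_cancel hBle
    · apply ih A _ (Option.map f) hof _ hA
      intro x y hxy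
      rw [SimpleGraph.sdiff_adj]
      refine ⟨hgrow x y (by rw [← hAB]; exact Or.inl hxy), ?_⟩
      rintro ⟨u, v, h1, h2, h3⟩
      rw [hof h2, hof h3] at h1
      have : (A ⊓ B).Adj x y := ⟨hxy, h1⟩
      rw [hd.eq_bot] at this
      exact this
    · exact ih B _ (Option.map f) hof (fun x y hxy => ⟨x, y, hxy, rfl, rfl⟩) hB

/-- Two edge-disjoint copies of `T` in the grown graph. -/
theorem forces_step (k t : ℕ) {V V' : Type} (T : SimpleGraph V) (H M : SimpleGraph V')
    (hMH : M ≤ H) (hM : IsMatch M) (e : Bool → V → Option V')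
    (he : ∀ b, Function.Injective (e b))
    (hh : ∀ b u v, T.Adj u v → (grow H M).Adj (e b u) (e b v))
    (hdis : ∀ u v u' v', T.Adj u v → T.Adj u' v' → e false u = e true u' →
      e false v = e true v' → False)
    (hT : Forces k t T) : Forces k (t + 1) H := by
  have hle : img (e false) (he false) T ≤ grow H M := by
    rintro x y ⟨u, v, h1, rfl, rfl⟩
    exact hh false u v h1
  refine ⟨M, hMH, hM, grow H M \ img (e false) (he false) T, img (e false) (he false) T,
    sdiff_sup_cancel hle, disjoint_sdiff_self_left, ?_, ?_⟩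
  · apply mono k t T _ (e true) (he true) _ hT
    intro u v huv
    rw [SimpleGraph.sdiff_adj]
    refine ⟨hh true u v huv, ?_⟩
    rintro ⟨u', v', h1, h2, h3⟩
    exact hdis u' v' u v h1 huv h2 h3
  · exact mono k t T _ (e false) (he false) (fun x y hxy => ⟨x, y, hxy, rfl, rfl⟩) hT

open Classical in
/-- gluing map -/
noncomputable def cp {V : Type} (I : Set V) (b : Bool) (v : V) : V × Bool :=
  if v ∈ I then (v, false) else (v, b)

theorem cp_fst {V : Type} (I : Set V) (b : Bool) (v : V) : (cp I b v).1 = v := by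
  unfold cp; split_ifs <;> rfl

theorem cp_of_mem {V : Type} (I : Set V) (b : Bool) (v : V) (h : v ∈ I) :
    cp I b v = (v, false) := by
  unfold cp; simp [h]

theorem cp_of_notMem {V : Type} (I : Set V) (b : Bool) (v : V) (h : v ∉ I) :
    cp I b v = (v, b) := by
  unfold cp; simp [h]

theorem cp_inj {V : Type} (I : Set V) (b b' : Bool) (u v : V) (h : cp I b u = cp I b' v) :
    u = v := by
  have := congrArg Prod.fst h
  rwa [cp_fst, cp_fst] at this

/-- Two copies of `T` glued along `I`, with `w` deleted and a pendant vertex attached to each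
former neighbour of `w`. -/
def sharp {V : Type} (T : SimpleGraph V) (I : Set V) (w : V) :
    SimpleGraph ((V × Bool) ⊕ (V × Bool)) where
  Adj x y := match x, y with
    | Sum.inl p, Sum.inl q => p.1 ≠ w ∧ q.1 ≠ w ∧ T.Adj p.1 q.1 ∧
        ∃ b, p = cp I b p.1 ∧ q = cp I b q.1
    | Sum.inl p, Sum.inr q => p = q ∧ T.Adj w p.1
    | Sum.inr p, Sum.inl q => p = q ∧ T.Adj w p.1
    | Sum.inr _, Sum.inr _ => False
  symm := ⟨by
    rintro (p | p) (q | q) h
    · exact ⟨h.2.1, h.1, h.2.2.1.symm, h.2.2.2.imp (fun b hb => ⟨hb.2, hb.1⟩)⟩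
    · exact ⟨h.1.symm, h.1 ▸ h.2⟩
    · exact ⟨h.1.symm, h.1 ▸ h.2⟩
    · exact h⟩
  loopless := ⟨by
    rintro (p | p) h
    · exact T.ne_of_adj h.2.2.1 rfl
    · exact h⟩

/-- the matching of pendant edges -/
def pend {V : Type} (T : SimpleGraph V) (w : V) : SimpleGraph ((V × Bool) ⊕ (V × Bool)) where
  Adj x y := match x, y with
    | Sum.inl _, Sum.inl _ => False
    | Sum.inl p, Sum.inr q => p = q ∧ T.Adj w p.1
    | Sum.inr p, Sum.inl q => p = q ∧ T.Adj w p.1
    | Sum.inr _, Sum.inr _ => False
  symm := ⟨by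
    rintro (p | p) (q | q) h
    · exact h
    · exact ⟨h.1.symm, h.1 ▸ h.2⟩
    · exact ⟨h.1.symm, h.1 ▸ h.2⟩
    · exact h⟩
  loopless := ⟨by
    rintro (p | p) h
    · exact h
    · exact h⟩

theorem sharp_ll {V : Type} (T : SimpleGraph V) (I : Set V) (w : V) (p q : V × Bool) :
    (sharp T I w).Adj (Sum.inl p) (Sum.inl q) ↔ p.1 ≠ w ∧ q.1 ≠ w ∧ T.Adj p.1 q.1 ∧
        ∃ b, p = cp I b p.1 ∧ q = cp I b q.1 := Iff.rfl

theorem sharp_lr {V : Type} (T : SimpleGraph V) (I : Set V) (w : V) (p q : V × Bool) :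
    (sharp T I w).Adj (Sum.inl p) (Sum.inr q) ↔ p = q ∧ T.Adj w p.1 := Iff.rfl

theorem sharp_rl {V : Type} (T : SimpleGraph V) (I : Set V) (w : V) (p q : V × Bool) :
    (sharp T I w).Adj (Sum.inr p) (Sum.inl q) ↔ p = q ∧ T.Adj w p.1 := Iff.rfl

theorem sharp_rr {V : Type} (T : SimpleGraph V) (I : Set V) (w : V) (p q : V × Bool) :
    (sharp T I w).Adj (Sum.inr p) (Sum.inr q) ↔ False := Iff.rfl

theorem forces_sharp (k t : ℕ) {V : Type} (T : SimpleGraph V) (I : Set V) (w : V) (hw : w ∈ I)
    (hI : ∀ u ∈ I, ∀ v ∈ I, ¬ T.Adj u v) (hT : Forces k t T) :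
    Forces k (t + 1) (sharp T I w) := by
  classical
  let e : Bool → V → Option ((V × Bool) ⊕ (V × Bool)) := fun b v =>
    if v = w then none else some (Sum.inl (cp I b v))
  have ew : ∀ b, e b w = none := fun b => by simp [e]
  have env : ∀ b v, v ≠ w → e b v = some (Sum.inl (cp I b v)) := fun b v hv => by simp [e, hv]
  refine forces_step k t T (sharp T I w) (pend T w) ?_ ?_ e ?_ ?_ ?_ hT
  · rintro (p | p) (q | q) h
    · exact h.elim
    · exact h
    · exact h
    · exact h.elim
  · rintro (p | p) (q | q) (r | r) h1 h2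
    · exact h1.elim
    · exact h1.elim
    · exact h2.elim
    · rw [← h1.1, ← h2.1]
    · rw [← h1.1, ← h2.1]
    · exact h2.elim
    · exact h1.elim
    · exact h1.elim
  · intro b u v huv
    by_cases hu : u = w
    · by_cases hv : v = w
      · rw [hu, hv]
      · rw [hu, ew, env b v hv] at huv
        exact absurd huv (by simp)
    · by_cases hv : v = w
      · rw [hv, ew, env b u hu] at huv
        exact absurd huv (by simp)
      · rw [env b u hu, env b v hv] at huv
        exact cp_inj I b b u v (Sum.inl_injective (Option.some_injective _ huv))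
  · intro b u v huv
    by_cases hu : u = w
    · have hv : v ≠ w := fun h => T.ne_of_adj huv (hu.trans h.symm)
      rw [hu, ew, env b v hv]
      refine ⟨Sum.inr (cp I b v), rfl, ?_⟩
      rw [cp_fst, ← hu]
      exact huv
    · by_cases hv : v = w
      · rw [hv, ew, env b u hu]
        refine ⟨Sum.inr (cp I b u), rfl, ?_⟩
        rw [cp_fst, ← hv]
        exact huv.symm
      · rw [env b u hu, env b v hv]
        refine ⟨⟨?_, ?_, ?_, b, ?_, ?_⟩, fun h => h⟩
        · rwa [cp_fst]
        · rwa [cp_fst]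
        · rwa [cp_fst, cp_fst]
        · rw [cp_fst]
        · rw [cp_fst]
  · have key : ∀ u u', cp I false u = cp I true u' → u ∈ I := by
      intro u u' h
      by_contra hu
      have h1 := cp_inj I _ _ _ _ h
      rw [← h1, cp_of_notMem I _ u hu, cp_of_notMem I _ u hu] at h
      exact absurd (congrArg Prod.snd h) (by simp)
    intro u v u' v' huv huv' h1 h2
    by_cases hu : u = w
    · have hv : v ≠ w := fun h => T.ne_of_adj huv (hu.trans h.symm)
      by_cases hv' : v' = w
      · rw [hv', ew, env _ v hv] at h2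
        exact absurd h2 (by simp)
      · rw [env _ v hv, env _ v' hv'] at h2
        have h3 := key _ _ (Sum.inl_injective (Option.some_injective _ h2))
        exact hI u (hu ▸ hw) v h3 huv
    · by_cases hu' : u' = w
      · rw [hu', ew, env _ u hu] at h1
        exact absurd h1 (by simp)
      · rw [env _ u hu, env _ u' hu'] at h1
        have h3 := key _ _ (Sum.inl_injective (Option.some_injective _ h1))
        by_cases hv : v = w
        · exact hI u h3 v (hv ▸ hw) huv
        · by_cases hv' : v' = w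
          · rw [hv', ew, env _ v hv] at h2
            exact absurd h2 (by simp)
          · rw [env _ v hv, env _ v' hv'] at h2
            have h4 := key _ _ (Sum.inl_injective (Option.some_injective _ h2))
            exact hI u h3 v h4 huv

/-- Colour classes `1, ..., m` are independent, class `m` has `N` vertices, the classes
`1, ..., m - 1` have `s` vertices, and the vertices of colour `0` have degree at most one. -/
def Good {V : Type} (m N s : ℕ) (T : SimpleGraph V) : Prop :=
  ∃ c : V → ℕ, (∀ v, c v ≤ m) ∧ (∀ u v, T.Adj u v → c u = c v → c u = 0) ∧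
    (∀ v u u', c v = 0 → T.Adj v u → T.Adj v u' → u = u') ∧
    {v | c v = m}.ncard = N ∧ ∀ j, 1 ≤ j → j < m → {v | c v = j}.ncard = s

theorem good_step {V : Type} [Finite V] (m N s : ℕ) (hm : 1 ≤ m) (T : SimpleGraph V)
    (h : Good m (N + 1) s T) :
    ∃ (I : Set V) (w : V), w ∈ I ∧ (∀ u ∈ I, ∀ v ∈ I, ¬ T.Adj u v) ∧
      Good m N (2 * s) (sharp T I w) := by
  classical
  obtain ⟨c, h1, h2, h3, h4, h5⟩ := h
  have hne : {v | c v = m}.Nonempty := by
    rw [← Set.ncard_pos, h4]; omega
  obtain ⟨w, hw⟩ := hne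
  have hwm : c w = m := hw
  have hI : ∀ u ∈ {v | c v = m}, ∀ v ∈ {v | c v = m}, ¬ T.Adj u v := by
    intro u hu v hv huv
    have hu' : c u = m := hu
    have hv' : c v = m := hv
    have := h2 u v huv (hu'.trans hv'.symm)
    omega
  refine ⟨{v | c v = m}, w, hw, hI, ?_⟩
  set I : Set V := {v | c v = m} with hIdef
  have memI : ∀ v, v ∈ I ↔ c v = m := fun v => Iff.rfl
  let c' : (V × Bool) ⊕ (V × Bool) → ℕ := fun x => match x with
    | Sum.inl p => if p.1 = w then 0 else if p.1 ∈ I ∧ p.2 = true then 0 else c p.1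
    | Sum.inr _ => 0
  have cl : ∀ p, c' (Sum.inl p) = if p.1 = w then 0 else if p.1 ∈ I ∧ p.2 = true then 0
    else c p.1 := fun p => rfl
  have cr : ∀ p, c' (Sum.inr p) = 0 := fun p => rfl
  -- isolated or zero
  have adjcol : ∀ p q, (sharp T I w).Adj (Sum.inl p) (Sum.inl q) → c' (Sum.inl p) = c p.1 := by
    intro p q hpq
    obtain ⟨hp, hq, hadj, b, hb1, hb2⟩ := hpq
    rw [cl, if_neg hp, if_neg]
    rintro ⟨hpI, hp2⟩
    rw [cp_of_mem I b _ hpI] at hb1
    rw [hb1] at hp2
    simp at hp2
  refine ⟨c', ?_, ?_, ?_, ?_, ?_⟩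
  · rintro (p | p)
    · rw [cl]
      split_ifs
      · omega
      · omega
      · exact h1 _
    · rw [cr p]; omega
  · rintro (p | p) (q | q) hpq he
    · have e1 := adjcol p q hpq
      have e2 := adjcol q p hpq.symm
      rw [e1] at he ⊢
      rw [e2] at he
      exact h2 _ _ hpq.2.2.1 he
    · exact he.trans (cr q)
    · exact cr p
    · exact cr p
  · rintro (p | p) (q | q) (r | r) h0 hpq hpr
    · have e1 := adjcol p q hpq
      rw [e1] at h0
      obtain ⟨_, _, a1, b, hb1, hb2⟩ := hpq
      obtain ⟨_, _, a2, b', hb1', hb2'⟩ := hpr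
      have e2 : q.1 = r.1 := h3 p.1 q.1 r.1 h0 a1 a2
      have hpI : p.1 ∉ I := by rw [memI]; omega
      rw [cp_of_notMem I _ _ hpI] at hb1 hb1'
      have ebb : b = b' := by
        have := hb1.symm.trans hb1'
        exact congrArg Prod.snd this
      rw [hb2, hb2', e2, ebb]
    · exfalso
      have e1 := adjcol p q hpq
      rw [e1] at h0
      have e2 := h3 p.1 q.1 w h0 hpq.2.2.1 hpr.2.symm
      exact hpq.2.1 e2
    · exfalso
      have e1 := adjcol p r hpr
      rw [e1] at h0
      have e2 := h3 p.1 r.1 w h0 hpr.2.2.1 hpq.2.symm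
      exact hpr.2.1 e2
    · rw [← hpq.1, ← hpr.1]
    · rw [← hpq.1, ← hpr.1]
    · exact hpr.elim
    · exact hpq.elim
    · exact hpq.elim
  · have : {x | c' x = m} = (fun v => (Sum.inl (v, false) : (V × Bool) ⊕ (V × Bool))) ''
        (I \ {w}) := by
      ext x
      simp only [Set.mem_ofPred_eq, Set.mem_image, Set.mem_sdiff, Set.mem_singleton_iff]
      constructor
      · intro hx
        rcases x with ⟨v, b⟩ | p
        · rw [cl] at hx
          simp only at hx
          split_ifs at hx with a1 a2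
          · omega
          · omega
          · have hv : v ∈ I := hx
            refine ⟨v, ⟨hv, a1⟩, ?_⟩
            have : b ≠ true := fun hb => a2 ⟨hv, hb⟩
            simp only [Bool.not_eq_true] at this
            rw [this]
        · rw [cr p] at hx; omega
      · rintro ⟨v, ⟨hv, hvw⟩, rfl⟩
        rw [cl, if_neg hvw, if_neg (by simp)]
        exact hv
    rw [this, Set.ncard_image_of_injective, Set.ncard_sdiff_singleton_of_mem hw, h4]
    · rfl
    · intro a b hab
      exact congrArg Prod.fst (Sum.inl_injective hab)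
  · intro j hj1 hj2
    have : {x | c' x = j} = (Sum.inl : V × Bool → (V × Bool) ⊕ (V × Bool)) ''
        ({v | c v = j} ×ˢ Set.univ) := by
      ext x
      simp only [Set.mem_ofPred_eq, Set.mem_image, Set.mem_prod, Set.mem_univ, and_true]
      constructor
      · intro hx
        rcases x with p | p
        · rw [cl] at hx
          split_ifs at hx with a1 a2
          · omega
          · omega
          · exact ⟨p, hx, rfl⟩
        · rw [cr p] at hx; omega
      · rintro ⟨p, hp, rfl⟩
        rw [cl, if_neg, if_neg]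
        · exact hp
        · rintro ⟨hpI, _⟩
          rw [memI] at hpI
          omega
        · intro hpw
          rw [hpw] at hp
          omega
    rw [this, Set.ncard_image_of_injective _ Sum.inl_injective, Set.ncard_prod, h5 j hj1 hj2,
      Set.ncard_univ]
    simp [mul_comm]

theorem iterate_class (k m : ℕ) (hm : 1 ≤ m) : ∀ (N s t : ℕ),
    (∃ (V : Type) (_ : Finite V) (T : SimpleGraph V), Good m N s T ∧ Forces k t T) →
    ∃ (V : Type) (_ : Finite V) (T : SimpleGraph V), Good m 0 (2 ^ N * s) T ∧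
      Forces k (t + N) T := by
  intro N
  induction N with
  | zero => intro s t h; simpa using h
  | succ N ih =>
    rintro s t ⟨V, hV, T, hG, hF⟩
    obtain ⟨I, w, hw, hI, hG'⟩ := good_step m N s hm T hG
    have hF' := forces_sharp k t T I w hw hI hF
    have h := ih (2 * s) (t + 1) ⟨_, inferInstance, _, hG', hF'⟩
    have e1 : 2 ^ N * (2 * s) = 2 ^ (N + 1) * s := by ring
    have e2 : t + 1 + N = t + (N + 1) := by ring
    rw [e1, e2] at h
    exact h

theorem good_down {V : Type} (m s : ℕ) (hm : 1 ≤ m) (T : SimpleGraph V) (hV : Finite V)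
    (h : Good (m + 1) 0 s T) : Good m s s T := by
  obtain ⟨c, h1, h2, h3, h4, h5⟩ := h
  refine ⟨c, fun v => ?_, h2, h3, h5 m hm (by omega), fun j hj1 hj2 => h5 j hj1 (by omega)⟩
  have h6 : c v ≠ m + 1 := by
    intro hv
    rw [Set.ncard_eq_zero] at h4
    have : v ∈ {v | c v = m + 1} := hv
    rw [h4] at this
    exact this
  have := h1 v
  omega

/-- `0, 1, 3, 11, 2059, ...` -/
def upper : ℕ → ℕ
  | 0 => 0
  | i + 1 => upper i + 2 ^ upper i

theorem levels (k : ℕ) : ∀ i : ℕ, i + 1 ≤ k →
    ∃ (V : Type) (_ : Finite V) (T : SimpleGraph V),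
      Good (k - i) (2 ^ upper i) (2 ^ upper i) T ∧ Forces k (upper i) T := by
  intro i
  induction i with
  | zero =>
    intro hk
    refine ⟨Fin k, inferInstance, ⊤, ⟨fun v => v.1 + 1, ?_, ?_, ?_, ?_, ?_⟩, ?_⟩
    · intro v
      have := v.2
      show v.1 + 1 ≤ k - 0
      omega
    · intro u v huv he
      exfalso
      apply SimpleGraph.ne_of_adj _ huv
      ext
      have he' : u.1 + 1 = v.1 + 1 := he
      omega
    · intro v u u' h0
      have h0' : v.1 + 1 = 0 := h0
      omega
    · simp only [upper, pow_zero]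
      rw [Set.ncard_eq_one]
      refine ⟨⟨k - 1, by omega⟩, ?_⟩
      ext v
      simp only [Set.mem_ofPred_eq, Set.mem_singleton_iff, Fin.ext_iff]
      omega
    · intro j hj1 hj2
      simp only [upper, pow_zero]
      rw [Set.ncard_eq_one]
      refine ⟨⟨j - 1, by omega⟩, ?_⟩
      ext v
      simp only [Set.mem_ofPred_eq, Set.mem_singleton_iff, Fin.ext_iff]
      omega
    · intro hc
      exact hc Finset.univ ⟨by simp [SimpleGraph.IsClique, Set.Pairwise], by simp⟩
  | succ i ih =>
    intro hk
    obtain ⟨m, hm⟩ : ∃ m, k - i = m + 1 := ⟨k - i - 1, by omega⟩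
    have h1 := ih (by omega)
    have h2 := iterate_class k (k - i) (by omega) _ _ _ h1
    obtain ⟨V, hV, T, hG, hF⟩ := h2
    rw [hm] at hG
    have e1 : 2 ^ (2 ^ upper i) * 2 ^ upper i = 2 ^ upper (i + 1) := by
      rw [← pow_add]; simp only [upper]; congr 1; ring
    rw [e1] at hG
    have hG' := good_down m _ (by omega) T hV hG
    refine ⟨V, hV, T, ?_, hF⟩
    have : k - (i + 1) = m := by omega
    rw [this]
    exact hG'

theorem exists_matching_start (k : ℕ) (hk : 1 ≤ k) :
    ∃ (V : Type) (_ : Finite V) (T : SimpleGraph V),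
      (∀ v u u', T.Adj v u → T.Adj v u' → u = u') ∧ Forces k (upper k) T := by
  obtain ⟨i, hi⟩ : ∃ i, k = i + 1 := ⟨k - 1, by omega⟩
  have h1 := levels k i (by omega)
  have h2 := iterate_class k (k - i) (by omega) _ _ _ h1
  obtain ⟨V, hV, T, hG, hF⟩ := h2
  refine ⟨V, hV, T, ?_, ?_⟩
  · obtain ⟨c, h1, h2, h3, h4, h5⟩ := hG
    intro v u u' hu hu'
    apply h3 v u u' _ hu hu'
    have h6 : c v ≠ k - i := by
      intro hv
      rw [Set.ncard_eq_zero] at h4
      have : v ∈ {v | c v = k - i} := hv
      rw [h4] at this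
      exact this
    have := h1 v
    omega
  · have : upper k = upper i + 2 ^ upper i := by rw [hi]; rfl
    rw [this]
    exact hF

theorem exists_triangleFree_start (k : ℕ) (hk : 2 ≤ k) :
    ∃ (V : Type) (_ : Finite V) (T : SimpleGraph V),
      T.CliqueFree 3 ∧ Forces k (upper (k - 2)) T := by
  obtain ⟨V, hV, T, hG, hF⟩ := levels k (k - 2) (by omega)
  refine ⟨V, hV, T, ?_, hF⟩
  obtain ⟨c, h1, h2, h3, -, -⟩ := hG
  have hk2 : k - (k - 2) = 2 := by omega
  rw [hk2] at h1
  classical
  intro s hs
  rw [SimpleGraph.is3Clique_iff] at hs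
  obtain ⟨a, b, d, hab, had, hbd, -⟩ := hs
  have ha : c a ≠ 0 := fun h => T.ne_of_adj hbd (h3 a b d h hab had)
  have hb : c b ≠ 0 := fun h => T.ne_of_adj had (h3 b a d h hab.symm hbd)
  have hd : c d ≠ 0 := fun h => T.ne_of_adj hab (h3 d a b h had.symm hbd.symm)
  have n1 : c a ≠ c b := fun h => ha (h2 a b hab h)
  have n2 : c a ≠ c d := fun h => ha (h2 a d had h)
  have n3 : c b ≠ c d := fun h => hb (h2 b d hbd h)
  have := h1 a
  have := h1 b
  have := h1 d
  omega

theorem acyclic_of_matching {V : Type} (T : SimpleGraph V)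
    (h : ∀ v u u', T.Adj v u → T.Adj v u' → u = u') : T.IsAcyclic := by
  intro v p hp
  have h1 : T.Adj v p.snd := p.adj_snd hp.not_nil
  have h2 : T.Adj v p.penultimate := (p.adj_penultimate hp.not_nil).symm
  exact hp.snd_ne_penultimate (h v _ _ h1 h2)

theorem tau_le {V : Type} (k t : ℕ) (G : SimpleGraph V) (h : Forces k t G) : tau k G ≤ t :=
  sInf_le ⟨t, rfl, h⟩

theorem rhoGirth_lt_top (k g : ℕ) : rhoGirth k g < ⊤ := by
  rcases Nat.eq_zero_or_pos k with hk | hk
  · subst hk
    have h0 : Forces 0 0 (⊥ : SimpleGraph Empty) := by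
      intro h
      exact h ∅ ⟨by simp, by simp⟩
    refine lt_of_le_of_lt (sInf_le ⟨Empty, inferInstance, ⊥, ?_, rfl⟩)
      (lt_of_le_of_lt (tau_le 0 0 _ h0) (ENat.natCast_lt_top 0))
    rw [SimpleGraph.egirth_eq_top.mpr]
    · exact le_top
    · exact acyclic_of_matching _ (fun v => v.elim)
  · obtain ⟨V, hV, T, hT, hF⟩ := exists_matching_start k hk
    refine lt_of_le_of_lt (sInf_le ⟨V, hV, T, ?_, rfl⟩)
      (lt_of_le_of_lt (tau_le k _ T hF) (ENat.natCast_lt_top _))
    rw [SimpleGraph.egirth_eq_top.mpr (acyclic_of_matching T hT)]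
    exact le_top

theorem rho_le (k : ℕ) (hk : 2 ≤ k) : rho k ≤ upper (k - 2) := by
  obtain ⟨V, hV, T, hT, hF⟩ := exists_triangleFree_start k hk
  exact (sInf_le ⟨V, hV, T, hT, rfl⟩ : rho k ≤ tau k T).trans (tau_le k _ T hF)

end Pool.Agent.X69.DPG
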