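import Mathlib
import Pool.Agent.X69.DPG

/-! Lower bounds for the forcing time of complete graphs from triangle-free graphs in the
degree-preserving growth Builder-Chooser game. -/

namespace Pool.Agent.X69.DPG

/-- block lengths `2, 3, 7, 127, ...` -/
def blk : ℕ → ℕ
  | 0 => 2
  | b + 1 => 2 ^ blk b - 1

/-- `0, 2, 5, 12, 139, ...`: partial sums of `blk`. -/
def lower : ℕ → ℕ
  | 0 => 0
  | b + 1 => lower b + blk b

/-- the edges with both ends of the same nonzero label -/
def same {V : Type} (G : SimpleGraph V) (l : V → ℕ) : SimpleGraph V where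
  Adj u v := G.Adj u v ∧ l u = l v ∧ l u ≠ 0
  symm := ⟨fun _ _ h => ⟨h.1.symm, h.2.1.symm, h.2.1 ▸ h.2.2⟩⟩
  loopless := ⟨fun _ h => G.ne_of_adj h.1 rfl⟩

/-- labelling after a growth step -/
def lab {V : Type} (l : V → ℕ) (j : ℕ) : Option V → ℕ
  | none => j
  | some v => l v

theorem two_le_blk (b : ℕ) : 2 ≤ blk b := by
  induction b with
  | zero => exact le_rfl
  | succ b ih =>
    have : 2 ^ 2 ≤ 2 ^ blk b := Nat.pow_le_pow_right (by norm_num) ih
    simp only [blk]
    omega

theorem same_split {V : Type} [Finite V] (A B G : SimpleGraph V) (l : V → ℕ) (h : A ⊔ B = G)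
    (hd : Disjoint A B) :
    (same A l).edgeSet.ncard + (same B l).edgeSet.ncard = (same G l).edgeSet.ncard := by
  rw [← Set.ncard_union_eq]
  · congr 1
    ext e
    induction e with
    | _ u v =>
      simp only [Set.mem_union, SimpleGraph.mem_edgeSet, same, ← h, SimpleGraph.sup_adj]
      tauto
  · rw [Set.disjoint_left]
    intro e
    induction e with
    | _ u v =>
      simp only [SimpleGraph.mem_edgeSet, same]
      intro h1 h2
      have h3 : (A ⊓ B).Adj u v := ⟨h1.1, h2.1⟩
      rw [hd.eq_bot] at h3
      exact h3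

theorem same_grow {V : Type} [Finite V] (G M : SimpleGraph V) (l : V → ℕ) (j : ℕ) :
    (same (grow G M) (lab l j)).edgeSet.ncard ≤
      (same G l).edgeSet.ncard + {v | l v = j}.ncard := by
  have hsub : (same (grow G M) (lab l j)).edgeSet ⊆
      (Sym2.map some '' (same G l).edgeSet) ∪
        ((fun v => s(none, some v)) '' {v | l v = j}) := by
    intro e
    induction e with
    | _ x y =>
      intro h
      rw [SimpleGraph.mem_edgeSet] at h
      obtain ⟨h1, h2, h3⟩ := h
      cases x with
      | none =>
        cases y with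
        | none => exact h1.elim
        | some v =>
          right
          exact ⟨v, h2.symm, rfl⟩
      | some u =>
        cases y with
        | none =>
          right
          exact ⟨u, h2, Sym2.eq_swap⟩
        | some v =>
          left
          exact ⟨s(u, v), ⟨h1.1, h2, h3⟩, rfl⟩
  calc (same (grow G M) (lab l j)).edgeSet.ncard
      ≤ ((Sym2.map some '' (same G l).edgeSet) ∪
        ((fun v => s(none, some v)) '' {v | l v = j})).ncard := Set.ncard_le_ncard hsub
    _ ≤ (Sym2.map some '' (same G l).edgeSet).ncard +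
        ((fun v => s(none, some v)) '' {v | l v = j}).ncard := Set.ncard_union_le _ _
    _ ≤ _ := Nat.add_le_add (Set.ncard_image_le) (Set.ncard_image_le)

theorem final_clique {V : Type} [Finite V] (G : SimpleGraph V) (l : V → ℕ) (L : ℕ)
    (hL : ∀ v, l v ≤ L)
    (h0 : ∀ u v w, l u = 0 → l v = 0 → l w = 0 → G.Adj u v → G.Adj v w → G.Adj u w → False)
    (hs : (same G l).edgeSet.ncard = 0) : G.CliqueFree (L + 3) := by
  classical
  rw [Set.ncard_eq_zero] at hs
  have hno : ∀ u v, G.Adj u v → l u = l v → l u = 0 := by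
    intro u v h1 h2
    by_contra h3
    have : s(u, v) ∈ (same G l).edgeSet := ⟨h1, h2, h3⟩
    rw [hs] at this
    exact this
  intro s hcl
  have hcard : s.card = L + 3 := hcl.card_eq
  have hadj : ∀ u ∈ s, ∀ v ∈ s, u ≠ v → G.Adj u v := fun u hu v hv huv =>
    hcl.isClique (Finset.mem_coe.mpr hu) (Finset.mem_coe.mpr hv) huv
  have e1 : s.card = ∑ j ∈ Finset.range (L + 1), (s.filter (fun v => l v = j)).card :=
    Finset.card_eq_sum_card_fiberwise (fun v _ => by
      simp only [Finset.coe_range, Set.mem_Iio]
      have := hL v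
      omega)
  rw [Finset.sum_range_succ'] at e1
  have e2 : ∑ j ∈ Finset.range L, (s.filter (fun v => l v = j + 1)).card ≤
      ∑ j ∈ Finset.range L, 1 := by
    apply Finset.sum_le_sum
    intro j _
    rw [Finset.card_le_one]
    intro u hu v hv
    rw [Finset.mem_filter] at hu hv
    by_contra huv
    have := hno u v (hadj u hu.1 v hv.1 huv) (hu.2.trans hv.2.symm)
    omega
  have e3 : (s.filter (fun v => l v = 0)).card ≤ 2 := by
    by_contra h
    push Not at h
    obtain ⟨t, ht1, ht2⟩ := Finset.exists_subset_card_eq (show 3 ≤ _ from h)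
    obtain ⟨x, y, z, hxy, hxz, hyz, rfl⟩ := Finset.card_eq_three.mp ht2
    have hx := ht1 (show x ∈ ({x, y, z} : Finset V) by simp)
    have hy := ht1 (show y ∈ ({x, y, z} : Finset V) by simp)
    have hz := ht1 (show z ∈ ({x, y, z} : Finset V) by simp)
    rw [Finset.mem_filter] at hx hy hz
    exact h0 x y z hx.2 hy.2 hz.2 (hadj x hx.1 y hy.1 hxy) (hadj y hy.1 z hz.1 hyz)
      (hadj x hx.1 z hz.1 hxz)
  simp only [Finset.sum_const, Finset.card_range, smul_eq_mul, mul_one] at e2
  omega

/-- the condition on the vertices with label zero is inherited -/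
theorem h0_grow {V : Type} (G M : SimpleGraph V) (l : V → ℕ) (j : ℕ) (hj : j ≠ 0)
    (h0 : ∀ u v w, l u = 0 → l v = 0 → l w = 0 → G.Adj u v → G.Adj v w → G.Adj u w → False)
    (A : SimpleGraph (Option V)) (hA : A ≤ grow G M) :
    ∀ u v w, lab l j u = 0 → lab l j v = 0 → lab l j w = 0 → A.Adj u v → A.Adj v w →
      A.Adj u w → False := by
  intro x y z hx hy hz h1 h2 h3
  cases x with
  | none => exact hj hx
  | some u =>
    cases y with
    | none => exact hj hy
    | some v =>
      cases z with
      | none => exact hj hz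
      | some w => exact h0 u v w hx hy hz (hA h1).1 (hA h2).1 (hA h3).1

theorem ncard_lab {V : Type} [Finite V] (l : V → ℕ) (j : ℕ) :
    {x | lab l j x = j}.ncard ≤ {v | l v = j}.ncard + 1 := by
  have : {x | lab l j x = j} ⊆ insert none (some '' {v | l v = j}) := by
    intro x hx
    cases x with
    | none => exact Set.mem_insert _ _
    | some v => exact Set.mem_insert_of_mem _ ⟨v, hx, rfl⟩
  calc {x | lab l j x = j}.ncard ≤ (insert none (some '' {v | l v = j})).ncard :=
        Set.ncard_le_ncard this
    _ ≤ (some '' {v | l v = j}).ncard + 1 := Set.ncard_insert_le _ _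
    _ ≤ _ := Nat.add_le_add_right (Set.ncard_image_le) 1

theorem chooser (L : ℕ) : ∀ b : ℕ, b + 1 ≤ L → ∀ i : ℕ, i ≤ blk b → ∀ {V : Type} (_ : Finite V)
    (G : SimpleGraph V) (l : V → ℕ), (∀ v, l v ≤ L) →
    (∀ u v w, l u = 0 → l v = 0 → l w = 0 → G.Adj u v → G.Adj v w → G.Adj u w → False) →
    {v | l v = b + 1}.ncard + i ≤ blk b →
    (∀ v, l v = 0 ∨ b + 1 ≤ l v) →
    (same G l).edgeSet.ncard + i + 3 ≤ 2 ^ i + blk b →
    ¬ Forces (L + 3) (lower b + i) G := by
  intro b
  induction b with
  | zero =>
    intro hb i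
    induction i with
    | zero =>
      intro _ V hV G l hL h0 _ _ hN hF
      have : (same G l).edgeSet.ncard = 0 := by
        simp only [blk, pow_zero] at hN
        omega
      exact hF (final_clique G l L hL h0 this)
    | succ i ih =>
      intro hi V hV G l hL h0 hc hlab hN hF
      obtain ⟨M, hMG, hM, A, B, hAB, hd, hA, hB⟩ := hF
      have e1 := same_grow G M l (0 + 1)
      have e2 := same_split A B (grow G M) (lab l (0 + 1)) hAB hd
      have e3 := ncard_lab l (0 + 1)
      have e4 : 2 ^ (i + 1) = 2 * 2 ^ i := by ring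
      have hL' : ∀ v, lab l (0 + 1) v ≤ L := by
        intro v
        cases v with
        | none => exact hb
        | some v => exact hL v
      have hlab' : ∀ v, lab l (0 + 1) v = 0 ∨ 0 + 1 ≤ lab l (0 + 1) v := by
        intro v
        omega
      by_cases hcmp : (same A (lab l (0 + 1))).edgeSet.ncard ≤
          (same B (lab l (0 + 1))).edgeSet.ncard
      · exact ih (by omega) inferInstance A (lab l (0 + 1)) hL'
          (h0_grow G M l (0 + 1) (by omega) h0 A (by rw [← hAB]; exact le_sup_left)) (by omega)
          hlab' (by omega) hA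
      · exact ih (by omega) inferInstance B (lab l (0 + 1)) hL'
          (h0_grow G M l (0 + 1) (by omega) h0 B (by rw [← hAB]; exact le_sup_right)) (by omega)
          hlab' (by omega) hB
  | succ b ihb =>
    intro hb i
    induction i with
    | zero =>
      intro _ V hV G l hL h0 _ hlab hN hF
      have hlt : 1 ≤ 2 ^ blk b := Nat.one_le_two_pow
      refine ihb (by omega) (blk b) le_rfl hV G l hL h0 ?_ ?_ ?_ hF
      · have : {v | l v = b + 1} = ∅ := by
          ext v
          simp only [Set.mem_ofPred_eq, Set.mem_empty_iff_false, iff_false]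
          rcases hlab v with h | h <;> omega
        rw [this]
        simp
      · intro v
        rcases hlab v with h | h
        · exact Or.inl h
        · right; omega
      · simp only [blk, pow_zero] at hN
        omega
    | succ i ih =>
      intro hi V hV G l hL h0 hc hlab hN hF
      obtain ⟨M, hMG, hM, A, B, hAB, hd, hA, hB⟩ := hF
      have e1 := same_grow G M l (b + 1 + 1)
      have e2 := same_split A B (grow G M) (lab l (b + 1 + 1)) hAB hd
      have e3 := ncard_lab l (b + 1 + 1)
      have e4 : 2 ^ (i + 1) = 2 * 2 ^ i := by ring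
      have hL' : ∀ v, lab l (b + 1 + 1) v ≤ L := by
        intro v
        cases v with
        | none => exact hb
        | some v => exact hL v
      have hlab' : ∀ v, lab l (b + 1 + 1) v = 0 ∨ b + 1 + 1 ≤ lab l (b + 1 + 1) v := by
        intro v
        cases v with
        | none => exact Or.inr le_rfl
        | some v => exact hlab v
      by_cases hcmp : (same A (lab l (b + 1 + 1))).edgeSet.ncard ≤
          (same B (lab l (b + 1 + 1))).edgeSet.ncard
      · exact ih (by omega) inferInstance A (lab l (b + 1 + 1)) hL'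
          (h0_grow G M l (b + 1 + 1) (by omega) h0 A (by rw [← hAB]; exact le_sup_left))
          (by omega) hlab' (by omega) hA
      · exact ih (by omega) inferInstance B (lab l (b + 1 + 1)) hL'
          (h0_grow G M l (b + 1 + 1) (by omega) h0 B (by rw [← hAB]; exact le_sup_right))
          (by omega) hlab' (by omega) hB

theorem decomp : ∀ L t : ℕ, 1 ≤ L → t ≤ lower L →
    ∃ b i, b + 1 ≤ L ∧ i ≤ blk b ∧ t = lower b + i := by
  intro L
  induction L with
  | zero => intro t h; omega
  | succ L ih =>
    intro t _ ht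
    simp only [lower] at ht
    rcases Nat.le_total (lower L) t with h | h
    · exact ⟨L, t - lower L, le_rfl, by omega, by omega⟩
    · rcases Nat.eq_zero_or_pos L with hL | hL
      · subst hL
        simp only [lower] at h
        refine ⟨0, 0, le_rfl, by simp, ?_⟩
        simp only [lower]
        omega
      · obtain ⟨b, i, h1, h2, h3⟩ := ih t hL h
        exact ⟨b, i, by omega, h2, h3⟩

theorem not_forces (k t : ℕ) (hk : 4 ≤ k) (ht : t ≤ lower (k - 3)) {V : Type} (hV : Finite V)
    (G : SimpleGraph V) (hG : G.CliqueFree 3) : ¬ Forces k t G := by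
  classical
  obtain ⟨L, rfl⟩ : ∃ L, k = L + 3 := ⟨k - 3, by omega⟩
  obtain ⟨b, i, h1, h2, h3⟩ := decomp L t (by omega) (by simpa using ht)
  rw [h3]
  refine chooser L b h1 i h2 hV G (fun _ => 0) (fun _ => Nat.zero_le _) ?_ ?_ (fun _ => Or.inl rfl)
    ?_
  · intro u v w _ _ _ huv hvw huw
    exact hG {u, v, w} (SimpleGraph.is3Clique_iff.mpr ⟨u, v, w, huv, huw, hvw, rfl⟩)
  · have : {v : V | 0 = b + 1} = ∅ := by
      ext v
      simp
    rw [this]
    simpa using h2
  · have h4 : (same G (fun _ => 0)).edgeSet = ∅ := by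
      ext e
      induction e with
      | _ u v => simp [same]
    rw [h4]
    have h5 := two_le_blk b
    have h6 : i < 2 ^ i := Nat.lt_two_pow_self
    simp only [Set.ncard_empty]
    omega

theorem lower_lt_rho (k : ℕ) (hk : 4 ≤ k) : (lower (k - 3) : ℕ∞) < rho k := by
  have : ((lower (k - 3) + 1 : ℕ) : ℕ∞) ≤ rho k := by
    apply le_sInf
    rintro n ⟨V, hV, G, hG, rfl⟩
    apply le_sInf
    rintro n ⟨t, rfl, ht⟩
    rw [Nat.cast_le]
    by_contra h
    exact not_forces k t hk (by omega) hV G hG ht
  refine lt_of_lt_of_le ?_ this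
  exact_mod_cast Nat.lt_succ_self _

/-- The tower function `1, 2, 4, 16, 65536, ...`. -/
def twr : ℕ → ℕ
  | 0 => 1
  | n + 1 => 2 ^ twr n

theorem one_le_twr (n : ℕ) : 1 ≤ twr n := by
  cases n with
  | zero => exact le_rfl
  | succ n => exact Nat.one_le_two_pow

theorem twr_lt_blk (b : ℕ) : twr b < blk b := by
  induction b with
  | zero => simp [twr, blk]
  | succ b ih =>
    have h1 : 2 ^ (twr b + 1) ≤ 2 ^ blk b := Nat.pow_le_pow_right (by norm_num) ih
    have h2 : 2 ^ 1 ≤ 2 ^ twr b := Nat.pow_le_pow_right (by norm_num) (one_le_twr b)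
    simp only [twr, blk]
    rw [pow_succ] at h1
    omega

theorem twr_lt_lower (k : ℕ) (hk : 4 ≤ k) : twr (k - 4) < lower (k - 3) := by
  obtain ⟨b, rfl⟩ : ∃ b, k = b + 4 := ⟨k - 4, by omega⟩
  have e1 : b + 4 - 4 = b := by omega
  have e2 : b + 4 - 3 = b + 1 := by omega
  rw [e1, e2]
  have := twr_lt_blk b
  simp only [lower]
  omega

theorem upper_lt_twr (n : ℕ) : upper n < twr n := by
  induction n with
  | zero => simp [upper, twr]
  | succ n ih =>
    have h1 : 2 ^ (upper n + 1) ≤ 2 ^ twr n := Nat.pow_le_pow_right (by norm_num) ih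
    have h2 : upper n < 2 ^ upper n := Nat.lt_two_pow_self
    simp only [twr, upper]
    rw [pow_succ] at h1
    omega

end Pool.Agent.X69.DPG
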